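import Mathlib
import Pool.Agent.H200C.All
import Pool.Agent.H200W.All
import Pool.Agent.Y939.NC.Reg

set_option autoImplicit false

/-!
# Prime divisors with `h¹ ≠ 0` have a standard form which is not chained

A class `(d; w)` is CHAINED at `d` (`Pool.Agent.H200C.ChainAt`) if there are a point `p` and a set `A` of
other points, whose multiplicities are ARBITRARY numbers (those of `A` at most `M`), and numbers
`E 0 ≥ E 1 ≥ … ≥ 1` (the degrees of a chain of curves), `μ ≥ 1`, `s` such that all other multiplicities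
are at most `μ` and take at most `s` values, and
* `w p + (E 0 + … + E (M - 1)) + 2 ^ 27 (μ + 1) E 0 ≤ d`;
* for `k < M`, if `k = 0` or `E k < E (k - 1)`:
  `∑_A max (w i - k) 0 + E k (E 0 + … + E (k - 1)) + 2 ^ 31 (μ + 1) E k (E 0 + E k g k) ≤ E k d`,
  where `g k` is the number of the `i ∈ A` with `k < w i ≤ k + 2 ^ 26 (μ + 1)`;
* the squares of the other multiplicities have the sum at least `2 ^ 28 s μ ^ 2`, or
  `∑_{A ∪ p} w i (w i + 1) + 2 ^ 30 (s + 1) μ ^ 2 ≤ (d + 1) (d + 2)`.
`Chained d w`: `(d; w)` is chained at `d`, or there is a chained class `(e; v)` with `e ≥ d`, `v ≤ w` and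
`(e + 2).choose 2 ≤ ∑ (v i + 1).choose 2`.

Let `k` be a field of characteristic zero and `X` the blow-up of the plane at `s ≥ 4` generic points.
Let `C` be a prime divisor of class `(d, w)` on `X`. Then `h¹ (C) = 0`, or finitely many quadratic
transformations carry `(d, w)` to a standard class `(d1, w1)` with `h⁰ (d1, w1) = h⁰ (C)`, which is
special and neither chained, nor wide (`Pool.Agent.H200W.Wide`), nor large
(`Pool.Agent.Y205.AV.Large`), nor good (`Pool.Agent.Y939.NC.Good`).
-/

namespace Pool.Agent.Results.MP_0dccba_ag.PrimeChainForms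

open MvPolynomial Pool.Agent.TH167.SHDefs
open Pool.Agent.Y536.SH (Standard)
open Pool.Agent.Y205.AV (Large)
open Pool.Agent.H200W (Wide wide_cls)
open Pool.Agent.H200C (Chained chained_all)
open Pool.Agent.Y939.NC (Good)

/-- `h¹` of the class `d H - ∑ w i E i`: the dimension of the linear system minus the virtual one. -/
noncomputable def hOne {k : Type} [Field k] {s : ℕ} (P : Fin s → Fin 2 → k) (d : ℕ)
    (w : Fin s → ℕ) : ℤ := dimL P d w - virtdim d w

theorem result : ∃ N0 : ℕ,
    ∀ (k : Type) [Field k] [CharZero k] (s : ℕ), 4 ≤ s →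
    ∀ (P : Fin s → Fin 2 → k),
      AlgebraicIndependent ℚ (fun ij : Fin s × Fin 2 => P ij.1 ij.2) →
      ∀ (d : ℕ) (w : Fin s → ℕ) (C : MvPolynomial (Fin 3) k), Curve P C d w →
        hOne P d w = 0 ∨ ∃ (d1 : ℕ) (w1 : Fin s → ℕ),
          Relation.ReflTransGen Quadratic (d, w) (d1, w1) ∧ Standard d1 w1 ∧
          Special P d1 w1 ∧ dimL P d1 w1 = dimL P d w ∧ ¬ Chained d1 w1 ∧ ¬ Wide d1 w1 ∧
          ¬ Large d1 w1 ∧ ¬ Good N0 d1 w1 := by
  obtain ⟨N0, hN0⟩ := Pool.Agent.Y939.NC.reg_exp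
  refine ⟨N0, fun k _ _ s hs P hP d w C hC => ?_⟩
  obtain ⟨r, rfl⟩ : ∃ r, s = r + 4 := ⟨s - 4, by omega⟩
  by_cases h : dimL P d w = virtdim d w
  · left
    unfold hOne
    omega
  · right
    obtain ⟨d1, w1, h1, h2, h3, h4, h5⟩ := Pool.Agent.Y536.SH.prime_full
      (Q := fun d' w' => Chained d' w' ∨ Wide d' w' ∨ Large d' w' ∨ Good N0 d' w')
      (fun hP d1 w1 hr hG => hG.elim (fun h => chained_all h hP) fun hG =>
        hG.elim (fun h => wide_cls h hP) fun hG =>
        hG.elim (fun h => Pool.Agent.Y205.AV.large_exp h hP)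
          fun h => Pool.Agent.Y939.NC.good_exp hN0 hs hr h hP) hP hC h
    exact ⟨d1, w1, h1, h2, h3, h4, fun h => h5 (Or.inl h),
      fun h => h5 (Or.inr (Or.inl h)), fun h => h5 (Or.inr (Or.inr (Or.inl h))),
      fun h => h5 (Or.inr (Or.inr (Or.inr h)))⟩

end Pool.Agent.Results.MP_0dccba_ag.PrimeChainForms
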