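import Mathlib
import Pool.Agent.H200P.All
import Pool.Agent.Y939.NC.Reg

set_option autoImplicit false

/-!
# Prime divisors with `h¹ ≠ 0` have a concentrated standard form

A class `(d; w)` is CONCENTRATED (`Pool.Agent.H200P.Concentrated c`, for a function `c` with positive
values) if for every `ε > 0` with `w i ≤ c(ε) d` for all `i` one has
`∑_{w i > c(ε) d ^ (2/3)} w i ^ 2 > (1 - ε) d ^ 2` and `∑_{w i ≤ c(ε) d ^ (2/3)} w i ^ 2 < ε d ^ 2`: either
some multiplicity is larger than `c(ε) d`, or the multiplicities larger than `c(ε) d ^ (2/3)` have almost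
the whole volume `d ^ 2`, and the others almost none of it.

There is a function `c` with positive values such that the following holds. Let `k` be a field of
characteristic zero and `X` the blow-up of the plane at `s ≥ 4` generic points. Let `C` be a prime
divisor of class `(d, w)` on `X`. Then `h¹ (C) = 0`, or finitely many quadratic transformations carry
`(d, w)` to a standard class `(d1, w1)` with `h⁰ (d1, w1) = h⁰ (C)`, which is special, concentrated and
neither wide (`Pool.Agent.H200W.Wide`), nor large (`Pool.Agent.Y205.AV.Large`), nor good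
(`Pool.Agent.Y939.NC.Good`).
-/

namespace Pool.Agent.Results.MP_0dccba_ag.PrimeConcentrated

open MvPolynomial Pool.Agent.TH167.SHDefs
open Pool.Agent.Y536.SH (Standard)
open Pool.Agent.Y205.AV (Large)
open Pool.Agent.H200W (Wide wide_cls)
open Pool.Agent.H200P (Concentrated conc_all)
open Pool.Agent.Y939.NC (Good)

/-- `h¹` of the class `d H - ∑ w i E i`: the dimension of the linear system minus the virtual one. -/
noncomputable def hOne {k : Type} [Field k] {s : ℕ} (P : Fin s → Fin 2 → k) (d : ℕ)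
    (w : Fin s → ℕ) : ℤ := dimL P d w - virtdim d w

theorem result : ∃ c : ℝ → ℝ, (∀ ε, 0 < ε → 0 < c ε) ∧ ∃ N0 : ℕ,
    ∀ (k : Type) [Field k] [CharZero k] (s : ℕ), 4 ≤ s →
    ∀ (P : Fin s → Fin 2 → k),
      AlgebraicIndependent ℚ (fun ij : Fin s × Fin 2 => P ij.1 ij.2) →
      ∀ (d : ℕ) (w : Fin s → ℕ) (C : MvPolynomial (Fin 3) k), Curve P C d w →
        hOne P d w = 0 ∨ ∃ (d1 : ℕ) (w1 : Fin s → ℕ),
          Relation.ReflTransGen Quadratic (d, w) (d1, w1) ∧ Standard d1 w1 ∧
          Special P d1 w1 ∧ dimL P d1 w1 = dimL P d w ∧ Concentrated c d1 w1 ∧ ¬ Wide d1 w1 ∧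
          ¬ Large d1 w1 ∧ ¬ Good N0 d1 w1 := by
  obtain ⟨c, hc, H⟩ := conc_all
  obtain ⟨N0, hN0⟩ := Pool.Agent.Y939.NC.reg_exp
  refine ⟨c, hc, N0, fun k _ _ s hs P hP d w C hC => ?_⟩
  obtain ⟨r, rfl⟩ : ∃ r, s = r + 4 := ⟨s - 4, by omega⟩
  by_cases h : dimL P d w = virtdim d w
  · left
    unfold hOne
    omega
  · right
    obtain ⟨d1, w1, h1, h2, h3, h4, h5⟩ := Pool.Agent.Y536.SH.prime_full
      (Q := fun d' w' => ¬ Concentrated c d' w' ∨ Wide d' w' ∨ Large d' w' ∨ Good N0 d' w')
      (fun hP d1 w1 hr hG => hG.elim (fun h => H w1 h hP) fun hG =>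
        hG.elim (fun h => wide_cls h hP) fun hG =>
        hG.elim (fun h => Pool.Agent.Y205.AV.large_exp h hP)
          fun h => Pool.Agent.Y939.NC.good_exp hN0 hs hr h hP) hP hC h
    exact ⟨d1, w1, h1, h2, h3, h4, by_contra fun h => h5 (Or.inl h),
      fun h => h5 (Or.inr (Or.inl h)), fun h => h5 (Or.inr (Or.inr (Or.inl h))),
      fun h => h5 (Or.inr (Or.inr (Or.inr h)))⟩

end Pool.Agent.Results.MP_0dccba_ag.PrimeConcentrated
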