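import Mathlib
import Pool.Agent.H200W.All
import Pool.Agent.Y939.NC.Reg

set_option autoImplicit false

/-!
# Prime divisors with `h¹ ≠ 0` have a special standard form which is not wide

A class `(e; w)` is wide (`Pool.Agent.H200W.WideAt`) if there are three points `p j`, with ARBITRARY
multiplicities `w (p 0) ≥ w (p 1) ≥ w (p 2)`, a nonempty set `S` of other points, and numbers `μ`, `s`
such that `w i ≤ 1` at all further points, `1 ≤ w i ≤ μ` for `i ∈ S` with at most `s` different values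
there, `w (p 0) + w (p 1) + w (p 2) ≤ e`, `w (p 0) + 1064960 (μ + 1) ≤ e`, and
`∑_S w i ^ 2 ≥ 2 ^ 28 s μ ^ 2` or `(e + 1) (e + 2) ≥ 2 ^ 30 s μ ^ 2 + ∑ w (p j) (w (p j) + 1)`. `Wide d w`:
`(d; w)` is wide, or `(e; w)` is for some `e ≥ d` with `(e + 2).choose 2 ≤ ∑ (w i + 1).choose 2`.

Let `k` be a field of characteristic zero and `X` the blow-up of the plane at `s ≥ 4` generic
points. Let `C` be a prime divisor of class `(d, w)` on `X`. Then `h¹ (C) = 0`, or finitely many
quadratic transformations carry `(d, w)` to a standard class `(d1, w1)` with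
`h⁰ (d1, w1) = h⁰ (C)`, which is special and neither wide, nor large (`Pool.Agent.Y205.AV.Large`), nor
good (`Pool.Agent.Y939.NC.Good`).
-/

namespace Pool.Agent.Results.MP_0dccba_ag.PrimeWideForms

open MvPolynomial Pool.Agent.TH167.SHDefs
open Pool.Agent.Y536.SH (Standard)
open Pool.Agent.Y205.AV (Large)
open Pool.Agent.H200W (Wide wide_cls)
open Pool.Agent.Y939.NC (Good)

/-- `h¹` of the class `d H - ∑ w i E i`: the dimension of the linear system minus the virtual one. -/
noncomputable def hOne {k : Type} [Field k] {s : ℕ} (P : Fin s → Fin 2 → k) (d : ℕ)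
    (w : Fin s → ℕ) : ℤ := dimL P d w - virtdim d w

theorem result : ∃ N0 : ℕ, ∀ (k : Type) [Field k] [CharZero k] (s : ℕ), 4 ≤ s →
    ∀ (P : Fin s → Fin 2 → k),
      AlgebraicIndependent ℚ (fun ij : Fin s × Fin 2 => P ij.1 ij.2) →
      ∀ (d : ℕ) (w : Fin s → ℕ) (C : MvPolynomial (Fin 3) k), Curve P C d w →
        hOne P d w = 0 ∨ ∃ (d1 : ℕ) (w1 : Fin s → ℕ),
          Relation.ReflTransGen Quadratic (d, w) (d1, w1) ∧ Standard d1 w1 ∧
          Special P d1 w1 ∧ dimL P d1 w1 = dimL P d w ∧ ¬ Wide d1 w1 ∧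
          ¬ Large d1 w1 ∧ ¬ Good N0 d1 w1 := by
  obtain ⟨N0, hN0⟩ := Pool.Agent.Y939.NC.reg_exp
  refine ⟨N0, fun k _ _ s hs P hP d w C hC => ?_⟩
  obtain ⟨r, rfl⟩ : ∃ r, s = r + 4 := ⟨s - 4, by omega⟩
  by_cases h : dimL P d w = virtdim d w
  · left
    unfold hOne
    omega
  · right
    obtain ⟨d1, w1, h1, h2, h3, h4, h5⟩ := Pool.Agent.Y536.SH.prime_full
      (Q := fun d' w' => Wide d' w' ∨ Large d' w' ∨ Good N0 d' w')
      (fun hP d1 w1 hr hG => hG.elim (fun h => wide_cls h hP) fun hG =>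
        hG.elim (fun h => Pool.Agent.Y205.AV.large_exp h hP)
          fun h => Pool.Agent.Y939.NC.good_exp hN0 hs hr h hP) hP hC h
    exact ⟨d1, w1, h1, h2, h3, h4, fun h => h5 (Or.inl h), fun h => h5 (Or.inr (Or.inl h)),
      fun h => h5 (Or.inr (Or.inr h))⟩

end Pool.Agent.Results.MP_0dccba_ag.PrimeWideForms
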