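import Mathlib
import Pool.Agent.H200C.All

set_option autoImplicit false

/-!
# Fat points of the plane in chained form impose maximal conditions

The case `r = 2` of the question.

A class `(d; w)` is CHAINED at `d` (`Pool.Agent.H200C.ChainAt`) if there are a point `p` and a set `A` of
other points, whose multiplicities are ARBITRARY numbers (those of `A` at most `M`), and numbers
`E 0 ≥ E 1 ≥ … ≥ 1` (the degrees of a chain of curves), `μ ≥ 1`, `s` such that all other multiplicities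
are at most `μ` and take at most `s` values, and
* `w p + (E 0 + … + E (M - 1)) + 2 ^ 27 (μ + 1) E 0 ≤ d`;
* for `k < M`, if `k = 0` or `E k < E (k - 1)`:
  `∑_A max (w i - k) 0 + E k (E 0 + … + E (k - 1)) + 2 ^ 31 (μ + 1) E k (E 0 + E k g k) ≤ E k d`,
  where `g k` is the number of the `i ∈ A` with `k < w i ≤ k + 2 ^ 26 (μ + 1)`;
* the squares of the other multiplicities have the sum at least `2 ^ 28 s μ ^ 2`, or
  `∑_{A ∪ p} w i (w i + 1) + 2 ^ 30 (s + 1) μ ^ 2 ≤ (d + 1) (d + 2)`.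
`Chained d w`: `(d; w)` is chained at `d`, or there is a chained class `(e; v)` with `e ≥ d`, `v ≤ w` and
`(e + 2).choose 2 ≤ ∑ (v i + 1).choose 2`.

If `k` general points of the complex projective plane with the multiplicities `m 1, …, m k` fail to
impose maximal conditions in degree `d`, then `(d; m)` is not chained. In particular, for
`m 1 ≥ … ≥ m k` and all `a < k`, `μ ≥ 1`, `q ≥ 1` such that the multiplicities after `m a` are at most
`μ` and take at most `q` values, one of the following holds (`E = 3, …, 3, 1, …, 1`):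
* `m i + m j + m l + 2 ^ 34 (μ + 1) > d` for some `i, j, l`;
* `m 1 + … + m a + 2 ^ 35 (μ + 1) (1 + g) > 3 d`, `g` the number of the `i ≤ a` with
  `m i ≤ 2 ^ 26 (μ + 1)`;
* the multiplicities after `m a` have little volume, `∑ m i ^ 2 < 2 ^ 29 q μ ^ 2`, and the others do not
  leave room for more.
-/

namespace Pool.Agent.Results.MP_1dafdd_ag.PlaneChains

open Finset MvPolynomial Pool.Agent.H200C

/-- `V_d(Γ)`: the forms of degree `d` vanishing to order at least `m i` at the points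
`(P i 0 : P i 1 : 1)` of the plane. -/
noncomputable def forms {k : ℕ} (P : Fin k → Fin 2 → ℂ) (d : ℕ) (m : Fin k → ℕ) :
    Submodule ℂ (MvPolynomial (Fin 3) ℂ) :=
  homogeneousSubmodule (Fin 3) ℂ d ⊓ Submodule.restrictScalars ℂ
    (⨅ i : Fin k, Ideal.span
      ({X 0 - C (P i 0) * X 2, X 1 - C (P i 1) * X 2} : Set (MvPolynomial (Fin 3) ℂ)) ^ (m i))

/-- `Γ` imposes maximal conditions in degree `d`. -/
def Maximal {k : ℕ} (P : Fin k → Fin 2 → ℂ) (d : ℕ) (m : Fin k → ℕ) : Prop :=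
  (Module.finrank ℂ ↥(forms P d m) : ℤ) =
    max 0 (((d + 2).choose 2 : ℤ) - ∑ i, ((m i + 1).choose 2 : ℤ))

/-- For general points `Γ` fails to impose maximal conditions in degree `d`: this is so on a dense open
set, equivalently there is no dense open set on which it imposes maximal conditions. -/
def Fails {k : ℕ} (d : ℕ) (m : Fin k → ℕ) : Prop :=
  ¬ ∃ F : MvPolynomial (Fin k × Fin 2) ℂ, F ≠ 0 ∧ ∀ P : Fin k → Fin 2 → ℂ,
    eval (fun ij : Fin k × Fin 2 => P ij.1 ij.2) F ≠ 0 → Maximal P d m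

theorem of_gen {k d : ℕ} {m : Fin k → ℕ} (h : Fails d m) : ¬ Pool.Agent.H200P.GenExp d m := by
  intro hg
  apply h
  obtain ⟨F, hF, hF'⟩ := Pool.Agent.TH442.NF.to_open (d := d) (w := m) hg
  refine ⟨F.map (algebraMap ℚ ℂ), Pool.Agent.H932R3.map_ne_zero_of hF, fun P hP => ?_⟩
  rw [eval_map] at hP
  have h1 : Module.finrank ℂ ↥(forms P d m) =
      Nat.choose (d + 2) 2 - ∑ i, Nat.choose (m i + 1) 2 := hF' (L := ℂ) P hP
  have h2 : ∑ i, ((m i + 1).choose 2 : ℤ) = ((∑ i, Nat.choose (m i + 1) 2 : ℕ) : ℤ) := by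
    push_cast
    rfl
  unfold Maximal
  rw [h1, h2]
  omega

theorem result (k d : ℕ) (m : Fin k → ℕ) (hf : Fails d m) :
    ¬ Chained d m ∧
    ∀ a μ q : ℕ, Antitone m → 3 ≤ k → a < k → 1 ≤ μ → 1 ≤ q →
      (∀ i : Fin k, a ≤ i.1 → m i ≤ μ) →
      ((univ.filter fun i : Fin k => a ≤ i.1).image m).card ≤ q →
      (∃ i j l : Fin k, i ≠ j ∧ i ≠ l ∧ j ≠ l ∧ d < m i + m j + m l + 2 ^ 34 * (μ + 1)) ∨
      3 * d < ∑ i ∈ univ.filter (fun i : Fin k => i.1 < a), m i + 2 ^ 35 * (μ + 1) *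
        (1 + (univ.filter fun i : Fin k => i.1 < a ∧ m i ≤ 2 ^ 26 * (μ + 1)).card) ∨
      (∑ i ∈ univ.filter (fun i : Fin k => a ≤ i.1), m i ^ 2 < 2 ^ 29 * q * μ ^ 2 ∧
        (d + 1) * (d + 2) < ∑ i ∈ univ.filter (fun i : Fin k => i.1 < a), m i * (m i + 1) +
          2 ^ 31 * (q + 1) * μ ^ 2) := by
  refine ⟨fun h => of_gen hf (chained_all h), fun a μ q h1 h2 h3 h4 h5 h6 h7 => ?_⟩
  by_contra hcon
  push Not at hcon
  obtain ⟨h8, h9, h10⟩ := hcon
  refine of_gen hf (chainAt_all (chainAt_ac two_all h1 h2 h3 h4 h5 h6 h7 h8 h9 ?_))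
  by_cases h : 2 ^ 29 * q * μ ^ 2 ≤ ∑ i ∈ univ.filter (fun i : Fin k => a ≤ i.1), m i ^ 2
  · exact Or.inl h
  · exact Or.inr (h10 (not_le.1 h))

end Pool.Agent.Results.MP_1dafdd_ag.PlaneChains
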