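import Mathlib
import Pool.Agent.H200P.All

set_option autoImplicit false

/-!
# Fat points of the plane which fail to impose maximal conditions are concentrated

The case `r = 2` of the question. For every `ε > 0` there is a `c > 0` such that for all `k`, `d` and
`m 1, …, m k` for which `k` general points of the complex projective plane with these multiplicities fail
to impose maximal conditions in degree `d`:

* some `m i` is larger than `c d`, or
* the multiplicities larger than `c d ^ (2 / 3)` have almost the whole volume,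
  `∑_{m i > c d ^ (2/3)} m i ^ 2 > (1 - ε) d ^ 2`, and the others almost none of it,
  `∑_{m i ≤ c d ^ (2/3)} m i ^ 2 < ε d ^ 2`; and the same is true with `c μ` instead of `c d ^ (2 / 3)` for
  every `μ` such that the multiplicities at most `μ` take at most `q` values and `q μ ^ 2 ≤ c d ^ 2`.
-/

namespace Pool.Agent.Results.MP_1dafdd_ag.PlaneConcentration

open Finset MvPolynomial

/-- `V_d(Γ)`: the forms of degree `d` vanishing to order at least `m i` at the points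
`(P i 0 : P i 1 : 1)` of the plane. -/
noncomputable def forms {k : ℕ} (P : Fin k → Fin 2 → ℂ) (d : ℕ) (m : Fin k → ℕ) :
    Submodule ℂ (MvPolynomial (Fin 3) ℂ) :=
  homogeneousSubmodule (Fin 3) ℂ d ⊓ Submodule.restrictScalars ℂ
    (⨅ i : Fin k, Ideal.span
      ({X 0 - C (P i 0) * X 2, X 1 - C (P i 1) * X 2} : Set (MvPolynomial (Fin 3) ℂ)) ^ (m i))

/-- `Γ` imposes maximal conditions in degree `d`. -/
def Maximal {k : ℕ} (P : Fin k → Fin 2 → ℂ) (d : ℕ) (m : Fin k → ℕ) : Prop :=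
  (Module.finrank ℂ ↥(forms P d m) : ℤ) =
    max 0 (((d + 2).choose 2 : ℤ) - ∑ i, ((m i + 1).choose 2 : ℤ))

/-- For general points `Γ` fails to impose maximal conditions in degree `d`: this is so on a dense open
set, equivalently there is no dense open set on which it imposes maximal conditions. -/
def Fails {k : ℕ} (d : ℕ) (m : Fin k → ℕ) : Prop :=
  ¬ ∃ F : MvPolynomial (Fin k × Fin 2) ℂ, F ≠ 0 ∧ ∀ P : Fin k → Fin 2 → ℂ,
    eval (fun ij : Fin k × Fin 2 => P ij.1 ij.2) F ≠ 0 → Maximal P d m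

theorem of_gen {k d : ℕ} {m : Fin k → ℕ} (h : Fails d m) : ¬ Pool.Agent.H200P.GenExp d m := by
  intro hg
  apply h
  obtain ⟨F, hF, hF'⟩ := Pool.Agent.TH442.NF.to_open (d := d) (w := m) hg
  refine ⟨F.map (algebraMap ℚ ℂ), Pool.Agent.H932R3.map_ne_zero_of hF, fun P hP => ?_⟩
  rw [eval_map] at hP
  have h1 : Module.finrank ℂ ↥(forms P d m) =
      Nat.choose (d + 2) 2 - ∑ i, Nat.choose (m i + 1) 2 := hF' (L := ℂ) P hP
  have h2 : ∑ i, ((m i + 1).choose 2 : ℤ) = ((∑ i, Nat.choose (m i + 1) 2 : ℕ) : ℤ) := by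
    push_cast
    rfl
  unfold Maximal
  rw [h1, h2]
  omega

theorem result (ε : ℝ) (hε : 0 < ε) : ∃ c : ℝ, 0 < c ∧
    ∀ (k d : ℕ) (m : Fin k → ℕ), Fails d m → (∀ i, (m i : ℝ) ≤ c * d) →
      ((1 - ε) * (d : ℝ) ^ 2 <
          ∑ i ∈ univ.filter (fun i => c * (d : ℝ) ^ (2 / 3 : ℝ) < (m i : ℝ)), (m i : ℝ) ^ 2 ∧
        ∑ i ∈ univ.filter (fun i => (m i : ℝ) ≤ c * (d : ℝ) ^ (2 / 3 : ℝ)), (m i : ℝ) ^ 2 <
          ε * (d : ℝ) ^ 2) ∧
      ∀ (q : ℕ) (μ : ℝ), 1 ≤ q → 0 ≤ μ →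
        ((univ.filter fun i => (m i : ℝ) ≤ μ).image m).card ≤ q → q * μ ^ 2 ≤ c * (d : ℝ) ^ 2 →
        (1 - ε) * (d : ℝ) ^ 2 <
            ∑ i ∈ univ.filter (fun i => c * μ < (m i : ℝ)), (m i : ℝ) ^ 2 ∧
          ∑ i ∈ univ.filter (fun i => (m i : ℝ) ≤ c * μ), (m i : ℝ) ^ 2 < ε * (d : ℝ) ^ 2 := by
  obtain ⟨c, hc, H1, H2⟩ := Pool.Agent.H200P.main_both Pool.Agent.H200P.mainC_all ε hε
  refine ⟨c, hc, fun k d m hf hm => ⟨?_, fun q μ h1 h2 h3 h4 => ?_⟩⟩
  · by_contra hcon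
    rw [not_and_or, not_lt, not_lt] at hcon
    exact of_gen hf (H1 m hm hcon)
  · by_contra hcon
    rw [not_and_or, not_lt, not_lt] at hcon
    exact of_gen hf (H2 m h1 h2 hm h3 h4 hcon)

end Pool.Agent.Results.MP_1dafdd_ag.PlaneConcentration
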