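import Mathlib
import Pool.Agent.H200P.All

set_option autoImplicit false

/-!
# Nef classes with arbitrary large coefficients and a positive part of small ones

Let `p_1, …, p_n` be very general points of the complex projective plane. For every `ε > 0` there is a
`γ > 0`, which depends only on `ε`, such that every real class `D = c H - ∑ x_i E_i` with
`0 ≤ x_i ≤ γ c` and `D ^ 2 ≥ 0` is nef if there is an `M` such that the coefficients at most `M` take at
most `s ≥ 1` values, `s M ^ 2 ≤ γ c ^ 2`, and those at most `γ M` satisfy `∑ x_i ^ 2 ≥ ε c ^ 2`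
(`SmallPart γ ε c x`). The coefficients above `γ M` are ARBITRARY numbers in `[0, γ c]`, in any number. The
class is ample if all coefficients are positive and the inequalities `D ^ 2 ≥ 0`, `x_i ≤ γ c`,
`s M ^ 2 ≤ γ c ^ 2` are strict. All images of these classes under quadratic transformations are nef.

The Harbourne-Hirschowitz conjecture (Q1) says that a class which is nonnegative on the `(-1)`-curves
is nef if `D ^ 2 ≥ 0`.
-/

namespace Pool.Agent.Results.MP_309968_ag.SmallCoefficients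

open Finset Pool.Agent.H200W Pool.Agent.H200P
open Pool.Agent.Results.MP_309968_ag.BoundaryRays (MultGE curveClasses curvCone)

/-- The classes `c H - ∑ x_i E_i` with small coefficients having the part `ε` of the volume, and with
nonnegative self-intersection, and their images under quadratic transformations. -/
inductive Orb (γ : ℝ → ℝ) {n : ℕ} : ℝ → (Fin n → ℝ) → Prop
  | small (ε c : ℝ) (x : Fin n → ℝ) : 0 < ε → SmallPart (γ ε) ε c x → ∑ i, x i ^ 2 ≤ c ^ 2 →
      Orb γ c x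
  | quad (c : ℝ) (x : Fin n → ℝ) (i : Fin 3 → Fin n) : Function.Injective i → Orb γ c x →
      Orb γ (qc i c x) (qx i c x)

/-- `SmallPart` with strict inequalities for the upper bounds. -/
def SmallPartStrict (γ ε : ℝ) {n : ℕ} (c : ℝ) (x : Fin n → ℝ) : Prop :=
  0 < c ∧ (∀ i, 0 ≤ x i ∧ x i < γ * c) ∧ ∃ (s : ℕ) (M : ℝ), 1 ≤ s ∧ 0 ≤ M ∧
    ((univ.filter fun i => x i ≤ M).image x).card ≤ s ∧ s * M ^ 2 < γ * c ^ 2 ∧
    ε * c ^ 2 ≤ ∑ i ∈ univ.filter (fun i => x i ≤ γ * M), x i ^ 2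

theorem strict_shrink {γ ε : ℝ} (hε : 0 < ε) {n : ℕ} {c : ℝ} {x : Fin n → ℝ}
    (h : SmallPartStrict γ ε c x) (hc : ∑ i, x i ^ 2 < c ^ 2) :
    ∃ c', c' < c ∧ SmallPart γ ε c' x ∧ ∑ i, x i ^ 2 ≤ c' ^ 2 := by
  obtain ⟨h1, h2, s, M, h3, h4, h5, h6, h7⟩ := h
  have e1 : ∀ᶠ t in nhds c, 0 < t := lt_mem_nhds h1
  have e2 : ∀ᶠ t in nhds c, ∀ i, x i < γ * t := by
    rw [Filter.eventually_all]
    intro i
    have hcont : Continuous fun t : ℝ => γ * t := by fun_prop
    exact hcont.continuousAt.eventually (lt_mem_nhds (h2 i).2)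
  have e3 : ∀ᶠ t in nhds c, s * M ^ 2 < γ * t ^ 2 := by
    have hcont : Continuous fun t : ℝ => γ * t ^ 2 := by fun_prop
    exact hcont.continuousAt.eventually (lt_mem_nhds h6)
  have e4 : ∀ᶠ t in nhds c, ∑ i, x i ^ 2 < t ^ 2 := by
    have hcont : Continuous fun t : ℝ => t ^ 2 := by fun_prop
    exact hcont.continuousAt.eventually (lt_mem_nhds hc)
  have e5 := (e1.and (e2.and (e3.and e4)))
  obtain ⟨t, ht, a1, a2, a3, a4⟩ : ∃ t, t < c ∧ 0 < t ∧ (∀ i, x i < γ * t) ∧
      s * M ^ 2 < γ * t ^ 2 ∧ ∑ i, x i ^ 2 < t ^ 2 := by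
    have h8 : ∀ᶠ t in nhdsWithin c (Set.Iio c), t < c ∧ 0 < t ∧ (∀ i, x i < γ * t) ∧
        s * M ^ 2 < γ * t ^ 2 ∧ ∑ i, x i ^ 2 < t ^ 2 := by
      filter_upwards [self_mem_nhdsWithin, nhdsWithin_le_nhds e5] with t ht h9
      exact ⟨ht, h9.1, h9.2.1, h9.2.2.1, h9.2.2.2⟩
    exact h8.exists
  refine ⟨t, ht, ⟨a1, fun i => ⟨(h2 i).1, (a2 i).le⟩, s, M, h3, h4, h5, a3.le, ?_⟩, a4.le⟩
  refine le_trans ?_ h7
  exact mul_le_mul_of_nonneg_left (pow_le_pow_left₀ a1.le ht.le 2) hε.le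

/-- There is a function `γ` with positive values such that for every number `n` of very general points
`p` of the plane: (1) the real classes `c H - ∑ x_i E_i` with nonnegative self-intersection and
`SmallPart (γ ε) ε c x` for some `ε > 0`, and all their images under quadratic transformations, are
nonnegative on the closed cone of curves of the blow-up; (2) if the upper bounds are strict, the
self-intersection is positive and all coefficients are positive, then the class is positive on all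
nonzero elements of the closed cone of curves. -/
theorem result : ∃ γ : ℝ → ℝ, (∀ ε, 0 < ε → 0 < γ ε) ∧ ∀ n : ℕ,
    ∃ f : ℕ → MvPolynomial (Fin n × Fin 2) ℂ, (∀ k, f k ≠ 0) ∧
      ∀ p : Fin n → Fin 2 → ℂ,
        (∀ k, MvPolynomial.eval (fun q : Fin n × Fin 2 => p q.1 q.2) (f k) ≠ 0) →
        (∀ (c : ℝ) (x : Fin n → ℝ), Orb γ c x →
          ∀ z ∈ curvCone p, 0 ≤ c * z.1 - ∑ i, x i * z.2 i) ∧
        (∀ (ε c : ℝ) (x : Fin n → ℝ), 0 < ε → SmallPartStrict (γ ε) ε c x →
          ∑ i, x i ^ 2 < c ^ 2 → (∀ i, 0 < x i) →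
          ∀ z ∈ curvCone p, z ≠ 0 → 0 < c * z.1 - ∑ i, x i * z.2 i) := by
  obtain ⟨γ, hγ, H⟩ := nef_fun
  have nef_small : ∀ {n : ℕ} {P : Fin n → Fin 2 → ℂ},
      AlgebraicIndependent ℚ (fun ij : Fin n × Fin 2 => P ij.1 ij.2) →
      ∀ {ε c : ℝ} {x : Fin n → ℝ}, 0 < ε → SmallPart (γ ε) ε c x → ∑ i, x i ^ 2 ≤ c ^ 2 →
        NefR P c x := fun {n P} hP {ε c x} hε h hc =>
    ⟨fun i => (h.2.1 i).1, fun G e u hG hGe hu => H ε hε hP c x h hc G e u hG.ne_zero hGe
      fun i => (hu i).1⟩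
  have nef_orb : ∀ {n : ℕ} {c : ℝ} {x : Fin n → ℝ}, Orb γ c x → ∀ P : Fin n → Fin 2 → ℂ,
      AlgebraicIndependent ℚ (fun ij : Fin n × Fin 2 => P ij.1 ij.2) → NefR P c x := by
    intro n c x h
    induction h with
    | small ε c x hε h hc => exact fun P hP => nef_small hP hε h hc
    | quad c x i hi _ ih => exact NefR.quad ih hi
  refine ⟨γ, hγ, fun n => ?_⟩
  obtain ⟨f, hf, hf'⟩ := Pool.Agent.TH167.SH.exists_fam (Fin n × Fin 2)
  refine ⟨f, hf, fun p hp => ?_⟩
  have hP := (hf' fun q => p q.1 q.2).1 hp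
  refine ⟨fun c x h => (nef_orb h p hP).cone, fun ε c x hε h hc hx => ?_⟩
  obtain ⟨c', h1, h2, h3⟩ := strict_shrink hε h hc
  exact (nef_small hP hε h2 h3).ample h1 hx

end Pool.Agent.Results.MP_309968_ag.SmallCoefficients
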