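import Mathlib
import Pool.Agent.H200W.NefFin

set_option autoImplicit false

/-!
# Nef classes with three arbitrary large coefficients

Let `p_1, …, p_n` be very general points of the complex projective plane. A real class
`D = c H - ∑ x_i E_i` with THREE ARBITRARY coefficients `x_1 ≥ x_2 ≥ x_3 ≥ 0` and with the other
nonzero coefficients positive, at most `M` and taking at most `s` different values is nef as soon as
`D ^ 2 ≥ 0`, `x_1 + x_2 + x_3 ≤ c`, `x_1 + 1064960 M ≤ c` and the sum of the squares of the other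
coefficients is at least `2 ^ 29 s M ^ 2`. It is ample if all coefficients are positive and the
inequalities for `c` are strict. All images of these classes under quadratic transformations are nef.

The Harbourne-Hirschowitz conjecture (Q1) says that a class which is nonnegative on the `(-1)`-curves
is nef if `D ^ 2 ≥ 0`.
-/

namespace Pool.Agent.Results.MP_309968_ag.WideClasses

open Pool.Agent.H200W
open Pool.Agent.Results.MP_309968_ag.BoundaryRays (MultGE curveClasses curvCone)

/-- The classes `c H - ∑ x_i E_i` in wide form with nonnegative self-intersection and their images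
under quadratic transformations. -/
inductive Orb {n : ℕ} : ℝ → (Fin n → ℝ) → Prop
  | wide (c : ℝ) (x : Fin n → ℝ) : WideR c x → ∑ i, x i ^ 2 ≤ c ^ 2 → Orb c x
  | quad (c : ℝ) (x : Fin n → ℝ) (i : Fin 3 → Fin n) : Function.Injective i → Orb c x →
      Orb (qc i c x) (qx i c x)

theorem wide_nonneg {n : ℕ} {c : ℝ} {x : Fin n → ℝ} (h : WideR c x) : ∀ i, 0 ≤ x i := by
  obtain ⟨p, S, M, s, hp, hpS, hz, hne, h2, h21, h10, hS, hs, hc, hc', hv⟩ := h
  intro i
  by_cases hi : i ∈ S
  · exact (hS i hi).1.le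
  · by_cases hj : ∀ j, p j ≠ i
    · rw [hz i hi hj]
    · push Not at hj
      obtain ⟨j, rfl⟩ := hj
      fin_cases j
      · exact (h2.trans h21).trans h10
      · exact h2.trans h21
      · exact h2

theorem wide_mono {n : ℕ} {c c' : ℝ} {x : Fin n → ℝ} (h : WideR c x) (hc : c ≤ c') :
    WideR c' x := by
  obtain ⟨p, S, M, s, hp, hpS, hz, hne, h2, h21, h10, hS, hs, h3, h4, hv⟩ := h
  exact ⟨p, S, M, s, hp, hpS, hz, hne, h2, h21, h10, hS, hs, h3.trans hc, h4.trans hc, hv⟩

theorem nef_wide {n : ℕ} {P : Fin n → Fin 2 → ℂ}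
    (hP : AlgebraicIndependent ℚ (fun ij : Fin n × Fin 2 => P ij.1 ij.2)) {c : ℝ}
    {x : Fin n → ℝ} (h : WideR c x) (hc : ∑ i, x i ^ 2 ≤ c ^ 2) : NefR P c x :=
  ⟨wide_nonneg h, fun G e u hG hGe hu =>
    nefWide nefExp hP c x h hc G e u hG.ne_zero hGe fun i => (hu i).1⟩

theorem nef_orb {n : ℕ} {c : ℝ} {x : Fin n → ℝ} (h : Orb c x) : ∀ P : Fin n → Fin 2 → ℂ,
    AlgebraicIndependent ℚ (fun ij : Fin n × Fin 2 => P ij.1 ij.2) → NefR P c x := by
  induction h with
  | wide c x h hc => exact fun P hP => nef_wide hP h hc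
  | quad c x i hi _ ih => exact NefR.quad ih hi

/-- For very general points `p` of the plane: (1) the real classes `c H - ∑ x_i E_i` in wide form
with nonnegative self-intersection, and all their images under quadratic transformations, are
nonnegative on the closed cone of curves of the blow-up; (2) if the class remains in wide form for a
smaller `c`, the self-intersection is positive and all coefficients are positive, then it is positive
on all nonzero elements of the closed cone of curves. -/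
theorem result (n : ℕ) :
    ∃ f : ℕ → MvPolynomial (Fin n × Fin 2) ℂ, (∀ k, f k ≠ 0) ∧
      ∀ p : Fin n → Fin 2 → ℂ,
        (∀ k, MvPolynomial.eval (fun q : Fin n × Fin 2 => p q.1 q.2) (f k) ≠ 0) →
        (∀ (c : ℝ) (x : Fin n → ℝ), Orb c x →
          ∀ z ∈ curvCone p, 0 ≤ c * z.1 - ∑ i, x i * z.2 i) ∧
        (∀ (c c' : ℝ) (x : Fin n → ℝ), WideR c' x → c' < c → ∑ i, x i ^ 2 < c ^ 2 →
          (∀ i, 0 < x i) → ∀ z ∈ curvCone p, z ≠ 0 → 0 < c * z.1 - ∑ i, x i * z.2 i) := by
  obtain ⟨f, hf, hf'⟩ := Pool.Agent.TH167.SH.exists_fam (Fin n × Fin 2)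
  refine ⟨f, hf, fun p hp => ?_⟩
  have hP := (hf' fun q => p q.1 q.2).1 hp
  refine ⟨fun c x h => (nef_orb h p hP).cone, fun c c' x h hcc hc hx => ?_⟩
  have hc'0 : 0 ≤ c' := by
    obtain ⟨q, S, M, s, hq, hqS, hz, hne, h2, h21, h10, hS, hs, h3, h4, hv⟩ := h
    linarith
  have hc0 : 0 < c := lt_of_le_of_lt hc'0 hcc
  have h1 : Real.sqrt (∑ i, x i ^ 2) < c := by
    rw [Real.sqrt_lt' hc0]
    exact hc
  have h2 : NefR p (max c' (Real.sqrt (∑ i, x i ^ 2))) x := by
    refine nef_wide hP (wide_mono h (le_max_left _ _)) ?_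
    have h3 : ∑ i, x i ^ 2 = Real.sqrt (∑ i, x i ^ 2) ^ 2 :=
      (Real.sq_sqrt (Finset.sum_nonneg fun i _ => sq_nonneg _)).symm
    calc ∑ i, x i ^ 2 = Real.sqrt (∑ i, x i ^ 2) ^ 2 := h3
      _ ≤ _ := pow_le_pow_left₀ (Real.sqrt_nonneg _) (le_max_right _ _) 2
  exact h2.ample (max_lt hcc h1) hx

end Pool.Agent.Results.MP_309968_ag.WideClasses
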