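import Mathlib
import Pool.Agent.H200P.All

set_option autoImplicit false

/-!
# The Harbourne-Hirschowitz conjecture for all classes whose standard form is not concentrated

A class `(d; w)` is CONCENTRATED (`Pool.Agent.H200P.Concentrated c`, for a function `c` with positive
values) if for every `ε > 0` with `w i ≤ c(ε) d` for all `i` one has
`∑_{w i > c(ε) d ^ (2/3)} w i ^ 2 > (1 - ε) d ^ 2` and `∑_{w i ≤ c(ε) d ^ (2/3)} w i ^ 2 < ε d ^ 2`: either
some multiplicity is larger than `c(ε) d`, or the multiplicities larger than `c(ε) d ^ (2/3)` have almost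
the whole volume `d ^ 2`, and the others almost none of it.

There is a function `c` with positive values such that: if finitely many reflections in classes
`H - E_i - E_j - E_k` carry `(d; w)` to a standard class which is not concentrated, then for general
points the linear system `(d; w)` has the expected dimension. For every `(d; w)` and general points: the
linear system `(d; w)` is special if and only if it is `(-1)`-special, unless its reduced form is a
special standard class which is concentrated, not wide (`Pool.Agent.H200W.Wide`) and not large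
(`Pool.Agent.Y205.AV.Large`; for wide and for large classes this was known).

The numbers of points and the multiplicities are arbitrary: `c` depends on nothing.
-/

namespace Pool.Agent.Results.MP_6b2d39_ag.ConcentratedForms

open MvPolynomial Pool.Agent.TH167.SHDefs Pool.Agent.Y205.AV Pool.Agent.H200W Pool.Agent.H200P
open Pool.Agent.Y536.SH (Standard)

/-- For general points the linear system has the expected dimension. -/
def Expected {n : ℕ} (d : ℕ) (w : Fin n → ℕ) : Prop :=
  ∃ F : MvPolynomial (Fin n × Fin 2) ℂ, F ≠ 0 ∧ ∀ P : Fin n → Fin 2 → ℂ,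
    MvPolynomial.eval (fun ij : Fin n × Fin 2 => P ij.1 ij.2) F ≠ 0 →
      dimL P d w = max (virtdim d w) (-1)

/-- The reflection of the class `a = (d; w)`, `d H - ∑ w l E l`, in the class
`H - E (i 0) - E (i 1) - E (i 2)`: with `δ = d - w (i 0) - w (i 1) - w (i 2)`, the numbers
`d`, `w (i 0)`, `w (i 1)`, `w (i 2)` are increased by `δ`. -/
def reflect {n : ℕ} (i : Fin 3 → Fin n) (a : ℤ × (Fin n → ℤ)) : ℤ × (Fin n → ℤ) :=
  (a.1 + (a.1 - a.2 (i 0) - a.2 (i 1) - a.2 (i 2)),
    fun l => a.2 l + if l = i 0 ∨ l = i 1 ∨ l = i 2 then a.1 - a.2 (i 0) - a.2 (i 1) - a.2 (i 2)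
      else 0)

/-- Finitely many reflections carry `(d; w)` to `(d'; w')`. -/
def Carries {n : ℕ} (d : ℕ) (w : Fin n → ℕ) (d' : ℕ) (w' : Fin n → ℕ) : Prop :=
  Relation.ReflTransGen
    (fun a b : ℤ × (Fin n → ℤ) => ∃ i : Fin 3 → Fin n, Function.Injective i ∧ b = reflect i a)
    ((d : ℤ), fun l => (w l : ℤ)) ((d' : ℤ), fun l => (w' l : ℤ))

theorem of_open {n : ℕ} {d : ℕ} {w : Fin n → ℕ}
    (h : ∀ {K : Type} [Field K] [CharZero K] {P : Fin n → Fin 2 → K},
      AlgebraicIndependent ℚ (fun ij : Fin n × Fin 2 => P ij.1 ij.2) →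
        Pool.Agent.H932R3.ExpDim K w P d) : Expected d w := by
  obtain ⟨F, hF, hF'⟩ := Pool.Agent.TH442.NF.to_open h
  refine ⟨F.map (algebraMap ℚ ℂ), Pool.Agent.H932R3.map_ne_zero_of hF, fun P hP => ?_⟩
  rw [MvPolynomial.eval_map] at hP
  have h1 : Module.finrank ℂ ↥(sys P d w) =
      Nat.choose (d + 2) 2 - ∑ i, Nat.choose (w i + 1) 2 := hF' (L := ℂ) P hP
  have h2 : ∑ i, ((w i + 1).choose 2 : ℤ) = ((∑ i, Nat.choose (w i + 1) 2 : ℕ) : ℤ) := by
    push_cast
    rfl
  unfold dimL virtdim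
  rw [h1, h2]
  omega

theorem result : ∃ c : ℝ → ℝ, (∀ ε, 0 < ε → 0 < c ε) ∧
    ∀ n : ℕ, 4 ≤ n → ∀ (d : ℕ) (w : Fin n → ℕ),
    (∀ (d' : ℕ) (w' : Fin n → ℕ), Carries d w d' w' → Standard d' w' → ¬ Concentrated c d' w' →
      Expected d w) ∧
    ∃ F : MvPolynomial (Fin n × Fin 2) ℂ, F ≠ 0 ∧
      ∀ P : Fin n → Fin 2 → ℂ, MvPolynomial.eval (fun ij : Fin n × Fin 2 => P ij.1 ij.2) F ≠ 0 →
        (MinusOneSpecial P d w → Special P d w) ∧
        (Special P d w → MinusOneSpecial P d w ∨
          ∃ (d'' : ℕ) (w'' : Fin n → ℕ) (k : ℕ) (G : Fin k → MvPolynomial (Fin 3) ℂ)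
            (e : Fin k → ℕ) (u : Fin k → Fin n → ℕ) (N : Fin k → ℕ) (d' : ℕ) (w' : Fin n → ℕ),
            Decomp P d w d'' w'' G e u N ∧
            Relation.ReflTransGen Quadratic (d'', w'') (d', w') ∧ Standard d' w' ∧
            Special P d' w' ∧ Concentrated c d' w' ∧ ¬ Wide d' w' ∧ ¬ Large d' w') := by
  obtain ⟨c, hc, H⟩ := conc_all
  refine ⟨c, hc, fun n hn d w => ⟨fun d' w' h1 hs hG => of_open fun hP =>
    Pool.Agent.TH442.NF.up_enef hP h1
      (Pool.Agent.TH442.NF.enef_of_std hn _ hs) (H w' hG hP), ?_⟩⟩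
  obtain ⟨F, hF, hF'⟩ := Pool.Agent.TH442.NF.hh_open hn
    (Q := fun d' w' => ¬ Concentrated c d' w' ∨ Wide d' w' ∨ Large d' w')
    (fun hP _ w1 _ hG => hG.elim (fun h => H w1 h hP) fun hG => hG.elim (fun h => wide_cls h hP)
      fun h => large_exp h hP) d w
  refine ⟨F, hF, fun P hP => ⟨(hF' P hP).1, fun hs => ?_⟩⟩
  rcases (hF' P hP).2 hs with h | ⟨d'', w'', k, G, e, u, N, d', w', a1, a2, a3, a4, a5⟩
  · exact Or.inl h
  · refine Or.inr ⟨d'', w'', k, G, e, u, N, d', w', a1, a2, a3, a4, ?_,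
      fun h => a5 (Or.inr (Or.inl h)), fun h => a5 (Or.inr (Or.inr h))⟩
    by_contra h
    exact a5 (Or.inl h)

end Pool.Agent.Results.MP_6b2d39_ag.ConcentratedForms
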