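import Mathlib
import Pool.Agent.H200C.All

set_option autoImplicit false

/-!
# Any number of arbitrary multiplicities up to `d`: chains of curves

A class `(d; w)` is CHAINED at `d` (`Pool.Agent.H200C.ChainAt`) if there are a point `p` and a set `A` of
other points, whose multiplicities are ARBITRARY numbers (those of `A` at most `M`), and numbers
`E 0 ≥ E 1 ≥ … ≥ 1` (the degrees of a chain of curves), `μ ≥ 1`, `s` such that all other multiplicities
are at most `μ` and take at most `s` values, and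
* `w p + (E 0 + … + E (M - 1)) + 2 ^ 27 (μ + 1) E 0 ≤ d`;
* for `k < M`, if `k = 0` or `E k < E (k - 1)`:
  `∑_A max (w i - k) 0 + E k (E 0 + … + E (k - 1)) + 2 ^ 31 (μ + 1) E k (E 0 + E k g k) ≤ E k d`,
  where `g k` is the number of the `i ∈ A` with `k < w i ≤ k + 2 ^ 26 (μ + 1)`;
* the squares of the other multiplicities have the sum at least `2 ^ 28 s μ ^ 2`, or
  `∑_{A ∪ p} w i (w i + 1) + 2 ^ 30 (s + 1) μ ^ 2 ≤ (d + 1) (d + 2)`.

`Chained d w`: `(d; w)` is chained at `d`, or there is a chained class `(e; v)` with `e ≥ d`, `v ≤ w` and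
`(e + 2).choose 2 ≤ ∑ (v i + 1).choose 2`.

(1) At general points of the complex projective plane all chained systems are non-special.

(2) Special case `E = 3, …, 3, 1, …, 1`: let `m 1 ≥ m 2 ≥ …`. If `m 1 + m 2 + m 3 ≤ d` and
`m 1 + … + m a ≤ 3 d`, both with some margin, the multiplicities after `m a` are at most `μ` with at most
`k` values, and `∑_{i > a} m i ^ 2 ≥ 2 ^ 29 k μ ^ 2` (or enough room is left by the first `a`), then the
system is non-special. (So `m 1, …, m a` are ARBITRARY with a positive anticanonical degree.)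

(3) Special case `E = e, …, e`: if `m p + e M ≤ d` and `∑_A m i ≤ e d`, both with some margin, for a
point `p` and a set `A` of points of multiplicity at most `M`, the others as before, then the system is
non-special; e.g. `e ^ 2` arbitrary multiplicities between `2 ^ 27 (μ + 1)` and `M`, with
`d ≥ e M + 2 ^ 32 e (μ + 1)`.
-/

namespace Pool.Agent.Results.MP_d3128a_ag.ChainsOfCurves

open Finset Pool.Agent.H200C

/-- The forms of degree `d` vanishing to order at least `m i` at the points `(P i 0 : P i 1 : 1)`. -/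
noncomputable def forms {s : ℕ} (P : Fin s → Fin 2 → ℂ) (d : ℕ) (m : Fin s → ℕ) :
    Submodule ℂ (MvPolynomial (Fin 3) ℂ) :=
  MvPolynomial.homogeneousSubmodule (Fin 3) ℂ d ⊓ Submodule.restrictScalars ℂ
    (⨅ i : Fin s, Ideal.span
      ({MvPolynomial.X 0 - MvPolynomial.C (P i 0) * MvPolynomial.X 2,
        MvPolynomial.X 1 - MvPolynomial.C (P i 1) * MvPolynomial.X 2} :
        Set (MvPolynomial (Fin 3) ℂ)) ^ (m i))

/-- For general points the system is non-special. -/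
def NonSpecial {s : ℕ} (d : ℕ) (m : Fin s → ℕ) : Prop :=
  ∃ F : MvPolynomial (Fin s × Fin 2) ℂ, F ≠ 0 ∧ ∀ P : Fin s → Fin 2 → ℂ,
    MvPolynomial.eval (fun ij : Fin s × Fin 2 => P ij.1 ij.2) F ≠ 0 →
      (Module.finrank ℂ ↥(forms P d m) : ℤ) =
        max 0 (((d + 2).choose 2 : ℤ) - ∑ i, ((m i + 1).choose 2 : ℤ))

theorem of_gen {s d : ℕ} {m : Fin s → ℕ} (h : Pool.Agent.H200P.GenExp d m) : NonSpecial d m := by
  obtain ⟨F, hF, hF'⟩ := Pool.Agent.TH442.NF.to_open (d := d) (w := m) h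
  refine ⟨F.map (algebraMap ℚ ℂ), Pool.Agent.H932R3.map_ne_zero_of hF, fun P hP => ?_⟩
  rw [MvPolynomial.eval_map] at hP
  have h1 : Module.finrank ℂ ↥(forms P d m) =
      Nat.choose (d + 2) 2 - ∑ i, Nat.choose (m i + 1) 2 := hF' (L := ℂ) P hP
  have h2 : ∑ i, ((m i + 1).choose 2 : ℤ) = ((∑ i, Nat.choose (m i + 1) 2 : ℕ) : ℤ) := by
    push_cast
    rfl
  rw [h1, h2]
  omega

theorem result (s d : ℕ) (m : Fin s → ℕ) :
    (Chained d m → NonSpecial d m) ∧
    -- a special case: the first `a` multiplicities have a positive anticanonical degree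
    (∀ a μ k : ℕ, Antitone m → 3 ≤ s → a < s → 1 ≤ μ → 1 ≤ k →
      (∀ i : Fin s, a ≤ i.1 → m i ≤ μ) →
      ((univ.filter fun i : Fin s => a ≤ i.1).image m).card ≤ k →
      (∀ i j l : Fin s, i ≠ j → i ≠ l → j ≠ l → m i + m j + m l + 2 ^ 34 * (μ + 1) ≤ d) →
      ∑ i ∈ univ.filter (fun i : Fin s => i.1 < a), m i + 2 ^ 35 * (μ + 1) *
        (1 + (univ.filter fun i : Fin s => i.1 < a ∧ m i ≤ 2 ^ 26 * (μ + 1)).card) ≤ 3 * d →
      (2 ^ 29 * k * μ ^ 2 ≤ ∑ i ∈ univ.filter (fun i : Fin s => a ≤ i.1), m i ^ 2 ∨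
        ∑ i ∈ univ.filter (fun i : Fin s => i.1 < a), m i * (m i + 1) + 2 ^ 31 * (k + 1) * μ ^ 2 ≤
          (d + 1) * (d + 2)) →
      NonSpecial d m) ∧
    -- a special case: one point, and the points of `A` on a curve of degree `e`
    ∀ (p : Fin s) (A : Finset (Fin s)) (e M μ k : ℕ), p ∉ A → 1 ≤ e → 1 ≤ μ →
      (∀ i ∈ A, m i ≤ M) → (∀ i, i ≠ p → i ∉ A → m i ≤ μ) →
      ((univ \ insert p A).image m).card ≤ k →
      m p + e * M + 2 ^ 31 * (μ + 1) * e ≤ d →
      ∑ i ∈ A, m i + 2 ^ 31 * (μ + 1) * e ^ 2 *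
        (1 + (A.filter fun i => 0 < m i ∧ m i ≤ 2 ^ 26 * (μ + 1)).card) ≤ e * d →
      (2 ^ 28 * k * μ ^ 2 ≤ ∑ i ∈ univ \ insert p A, m i ^ 2 ∨
        ∑ i ∈ insert p A, m i * (m i + 1) + 2 ^ 30 * (k + 1) * μ ^ 2 ≤ (d + 1) * (d + 2)) →
      NonSpecial d m := by
  refine ⟨fun h => of_gen (chained_all h), ?_, ?_⟩
  · intro a μ k h1 h2 h3 h4 h5 h6 h7 h8 h9 h10
    exact of_gen (chainAt_all (chainAt_ac two_all h1 h2 h3 h4 h5 h6 h7 h8 h9 h10))
  · intro p A e M μ k h1 h2 h3 h4 h5 h6 h7 h8 h9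
    exact of_gen (chainAt_all (chainAt_e two_all h1 h2 h3 h4 h5 h6 h7 h8 h9))

end Pool.Agent.Results.MP_d3128a_ag.ChainsOfCurves
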