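import Mathlib
import Pool.Agent.H200P.All

set_option autoImplicit false

/-!
# Arbitrary large multiplicities: special systems are concentrated in multiplicities `> c d ^ (2/3)`

For every `ε > 0` there is a `c > 0` such that the linear system of plane curves of degree `d` with
multiplicities `m 1 ≥ m 2 ≥ ⋯ ≥ m s` at general points of the complex projective plane, `m 1 ≤ c d`, is
non-special in each of the following cases.

(1) The multiplicities at most `c d ^ (2 / 3)` have at least the part `ε` of the volume: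
`∑_{m i ≤ c d ^ (2/3)} m i ^ 2 ≥ ε d ^ 2`; or those above `c d ^ (2 / 3)` leave the part `ε` free:
`∑_{m i > c d ^ (2/3)} m i ^ 2 ≤ (1 - ε) d ^ 2`.

(2) The same with the bound `c μ` instead of `c d ^ (2 / 3)`, where `μ` is any number such that the
multiplicities at most `μ` take at most `k ≥ 1` values with `k μ ^ 2 ≤ c d ^ 2`.

There is no other condition: the multiplicities above the bound are ARBITRARY numbers up to `c d`, the
number of the points, the values and their frequencies are arbitrary. So a special system with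
`m 1 ≤ c d` has almost all of its volume in multiplicities larger than `c d ^ (2 / 3)`.
-/

namespace Pool.Agent.Results.MP_d3128a_ag.LargeMultiplicities

open Finset

/-- The forms of degree `d` vanishing to order at least `m i` at the points `(P i 0 : P i 1 : 1)`. -/
noncomputable def forms {s : ℕ} (P : Fin s → Fin 2 → ℂ) (d : ℕ) (m : Fin s → ℕ) :
    Submodule ℂ (MvPolynomial (Fin 3) ℂ) :=
  MvPolynomial.homogeneousSubmodule (Fin 3) ℂ d ⊓ Submodule.restrictScalars ℂ
    (⨅ i : Fin s, Ideal.span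
      ({MvPolynomial.X 0 - MvPolynomial.C (P i 0) * MvPolynomial.X 2,
        MvPolynomial.X 1 - MvPolynomial.C (P i 1) * MvPolynomial.X 2} :
        Set (MvPolynomial (Fin 3) ℂ)) ^ (m i))

/-- For general points the system is non-special. -/
def NonSpecial {s : ℕ} (d : ℕ) (m : Fin s → ℕ) : Prop :=
  ∃ F : MvPolynomial (Fin s × Fin 2) ℂ, F ≠ 0 ∧ ∀ P : Fin s → Fin 2 → ℂ,
    MvPolynomial.eval (fun ij : Fin s × Fin 2 => P ij.1 ij.2) F ≠ 0 →
      (Module.finrank ℂ ↥(forms P d m) : ℤ) =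
        max 0 (((d + 2).choose 2 : ℤ) - ∑ i, ((m i + 1).choose 2 : ℤ))

theorem of_gen {s d : ℕ} {m : Fin s → ℕ} (h : Pool.Agent.H200P.GenExp d m) : NonSpecial d m := by
  obtain ⟨F, hF, hF'⟩ := Pool.Agent.TH442.NF.to_open (d := d) (w := m) h
  refine ⟨F.map (algebraMap ℚ ℂ), Pool.Agent.H932R3.map_ne_zero_of hF, fun P hP => ?_⟩
  rw [MvPolynomial.eval_map] at hP
  have h1 : Module.finrank ℂ ↥(forms P d m) =
      Nat.choose (d + 2) 2 - ∑ i, Nat.choose (m i + 1) 2 := hF' (L := ℂ) P hP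
  have h2 : ∑ i, ((m i + 1).choose 2 : ℤ) = ((∑ i, Nat.choose (m i + 1) 2 : ℕ) : ℤ) := by
    push_cast
    rfl
  rw [h1, h2]
  omega

theorem result (ε : ℝ) (hε : 0 < ε) : ∃ c : ℝ, 0 < c ∧
    ∀ (s d : ℕ) (m : Fin s → ℕ), Antitone m → (∀ i, (m i : ℝ) ≤ c * d) →
      -- (1) small multiplicities: at most `c d ^ (2 / 3)`
      ((ε * (d : ℝ) ^ 2 ≤
            ∑ i ∈ univ.filter (fun i => (m i : ℝ) ≤ c * (d : ℝ) ^ (2 / 3 : ℝ)), (m i : ℝ) ^ 2 ∨
          ∑ i ∈ univ.filter (fun i => c * (d : ℝ) ^ (2 / 3 : ℝ) < (m i : ℝ)), (m i : ℝ) ^ 2 ≤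
            (1 - ε) * (d : ℝ) ^ 2) → NonSpecial d m) ∧
      -- (2) small multiplicities: at most `c μ`, where `k μ ^ 2 ≤ c d ^ 2` for the number `k` of values
      ∀ (k : ℕ) (μ : ℝ), 1 ≤ k → 0 ≤ μ →
        ((univ.filter fun i => (m i : ℝ) ≤ μ).image m).card ≤ k → k * μ ^ 2 ≤ c * (d : ℝ) ^ 2 →
        (ε * (d : ℝ) ^ 2 ≤
            ∑ i ∈ univ.filter (fun i => (m i : ℝ) ≤ c * μ), (m i : ℝ) ^ 2 ∨
          ∑ i ∈ univ.filter (fun i => c * μ < (m i : ℝ)), (m i : ℝ) ^ 2 ≤
            (1 - ε) * (d : ℝ) ^ 2) → NonSpecial d m := by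
  obtain ⟨c, hc, H1, H2⟩ := Pool.Agent.H200P.main_both Pool.Agent.H200P.mainC_all ε hε
  exact ⟨c, hc, fun s d m _ h => ⟨fun h' => of_gen (H1 m h h'.symm),
    fun k μ h1 h2 h3 h4 h' => of_gen (H2 m h1 h2 h h3 h4 h'.symm)⟩⟩

end Pool.Agent.Results.MP_d3128a_ag.LargeMultiplicities
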