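import Mathlib
import Pool.Agent.H200W.All

set_option autoImplicit false

/-!
# Three arbitrary multiplicities, the others measured by the number of their values

Let `v 0 ≥ v 1 ≥ v 2 ≥ v 3 ≥ ⋯` be multiplicities with `v 3 > 0`, let `s` be the number of different
nonzero values among `v 3, v 4, …`, and let `c = 1064960 (v 3 + 1)`. There is one nonempty open set of
points of the complex projective plane at which the linear system of forms of degree `d` with these
multiplicities is non-special for all `d ≥ v 0 + v 1 + v 2` such that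

* `∑_{i ≥ 3} v i ^ 2 ≥ 2 ^ 28 s (v 3) ^ 2`, and `d ≥ v 0 + c` or
  `∑_{i ≥ 1} v i (v i + 1) ≥ (c + 1) (2 v 0 + c + 2)`, or
* `d ≥ v 0 + c` and `(d + 1) (d + 2) ≥ 2 ^ 30 s (v 3) ^ 2 + ∑_{i < 3} v i (v i + 1)`.

For instance all systems `(d; M₁, M₂, M₃, mⁿ)` with `n ≥ 2 ^ 28`, arbitrary `m ≥ 1`, arbitrary
`M₁ ≥ M₂ ≥ M₃ ≥ m`, `d ≥ M₁ + M₂ + M₃` and `d ≥ M₁ + c` are non-special.
-/

namespace Pool.Agent.Results.MP_d3128a_ag.ThreeArbitraryWide

open Finset Pool.Agent

/-- the number of different nonzero values among `v 3, v 4, …` -/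
def numValues {r : ℕ} (v : Fin (r + 4) → ℕ) : ℕ :=
  (((univ.filter fun i : Fin (r + 4) => 3 ≤ (i : ℕ)).image v).erase 0).card

theorem nv_eq {r : ℕ} (v : Fin (r + 4) → ℕ) : H200W.nv v = numValues v := by
  unfold H200W.nv numValues
  congr 2
  ext x
  simp only [mem_image, mem_univ, true_and, mem_filter]
  constructor
  · rintro ⟨i, rfl⟩
    exact ⟨⟨i.1 + 3, by omega⟩, by simp, rfl⟩
  · rintro ⟨i, hi, rfl⟩
    refine ⟨⟨i.1 - 3, by omega⟩, ?_⟩
    congr 1
    exact Fin.ext (by simp only; omega)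

theorem sum_three {r : ℕ} (f : Fin (r + 4) → ℕ) :
    (∑ i : Fin (r + 4), if 3 ≤ (i : ℕ) then f i else 0) = ∑ i : Fin (r + 1), f ⟨i.1 + 3, by omega⟩ := by
  rw [← Finset.sum_filter]
  symm
  refine Finset.sum_bij (fun i _ => ⟨i.1 + 3, by omega⟩) ?_ ?_ ?_ ?_
  · intro i _
    simp
  · intro i _ j _ hij
    have := congrArg Fin.val hij
    simp only at this
    exact Fin.ext (by omega)
  · intro j hj
    rw [mem_filter] at hj
    exact ⟨⟨j.1 - 3, by omega⟩, mem_univ _, Fin.ext (by simp only; omega)⟩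
  · intro i _
    rfl

theorem result (r s : ℕ) (v : Fin (r + 4) → ℕ) (hv : Antitone v) (h3 : 0 < v 3)
    (hs : numValues v ≤ s) :
    ∃ F : MvPolynomial (Fin (r + 4) × Fin 2) ℂ, F ≠ 0 ∧
      ∀ P : Fin (r + 4) → Fin 2 → ℂ,
        MvPolynomial.eval (fun ij : Fin (r + 4) × Fin 2 => P ij.1 ij.2) F ≠ 0 →
        ∀ d : ℕ, v 0 + v 1 + v 2 ≤ d →
          (268435456 * s * v 3 ^ 2 ≤ (∑ i : Fin (r + 4), if 3 ≤ (i : ℕ) then v i ^ 2 else 0) ∧
              (v 0 + 1064960 * (v 3 + 1) ≤ d ∨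
                (1064960 * (v 3 + 1) + 1) * (2 * v 0 + 1064960 * (v 3 + 1) + 2) ≤
                  ∑ i : Fin (r + 4), if 1 ≤ (i : ℕ) then v i * (v i + 1) else 0) ∨
            v 0 + 1064960 * (v 3 + 1) ≤ d ∧
              1073741824 * s * v 3 ^ 2 + (v 0 * (v 0 + 1) + v 1 * (v 1 + 1) + v 2 * (v 2 + 1)) ≤
                (d + 1) * (d + 2)) →
          Module.finrank ℂ
            ↥(MvPolynomial.homogeneousSubmodule (Fin 3) ℂ d ⊓
              Submodule.restrictScalars ℂ
                (⨅ i : Fin (r + 4),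
                  (Ideal.span
                    ({MvPolynomial.X 0 - MvPolynomial.C (P i 0) * MvPolynomial.X 2,
                      MvPolynomial.X 1 - MvPolynomial.C (P i 1) * MvPolynomial.X 2} :
                      Set (MvPolynomial (Fin 3) ℂ))) ^ (v i)))
          = Nat.choose (d + 2) 2 - ∑ i : Fin (r + 4), Nat.choose (v i + 1) 2 := by
  obtain ⟨F, hF, hF'⟩ := H200W.wide_all ℂ hv h3
  refine ⟨F.map (algebraMap ℚ ℂ), H932R3.map_ne_zero_of hF, fun P hP d hd h1 => ?_⟩
  rw [MvPolynomial.eval_map] at hP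
  refine hF' P hP d ?_
  rw [sum_three] at h1
  have hnv : H200W.nv v ≤ s := nv_eq v ▸ hs
  have hmono : ∀ a : ℕ, a * H200W.nv v * v 3 ^ 2 ≤ a * s * v 3 ^ 2 := fun a =>
    Nat.mul_le_mul_right _ (Nat.mul_le_mul_left _ hnv)
  have e28 : (2 : ℕ) ^ 28 = 268435456 := by norm_num
  have e30 : (2 : ℕ) ^ 30 = 1073741824 := by norm_num
  rcases h1 with ⟨h1, h2 | h2⟩ | ⟨h1, h2⟩
  · left
    refine ⟨hd, h2, Or.inl ?_⟩
    rw [e28]
    exact (hmono _).trans h1
  · obtain ⟨c, hc⟩ : ∃ c, c = 1064960 * (v 3 + 1) := ⟨_, rfl⟩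
    rw [← hc] at h2
    rcases Nat.le_total (v 0 + c) d with h4 | h4
    · left
      refine ⟨hd, hc ▸ h4, Or.inl ?_⟩
      rw [e28]
      exact (hmono _).trans h1
    · right
      refine ⟨v 0 + c, h4, ⟨hd.trans h4, le_of_eq (by rw [hc]), Or.inl ?_⟩, ?_⟩
      · rw [e28]
        exact (hmono _).trans h1
      · have h5 : (v 0 + c + 2).choose 2 * 2 = (v 0 + c + 2) * (v 0 + c + 1) := by
          rw [Nat.choose_two_right, Nat.div_mul_cancel]
          · congr 1
          · exact (Nat.even_mul_pred_self _).two_dvd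
        have h6 : 2 * H932R7.Aw v = ∑ i, v i * (v i + 1) := by
          unfold H932R7.Aw
          rw [mul_sum]
          refine sum_congr rfl fun i _ => ?_
          rw [Nat.choose_two_right, Nat.mul_div_cancel']
          · rw [Nat.add_sub_cancel, mul_comm]
          · exact (Nat.even_mul_pred_self _).two_dvd
        have h7 : ∑ i, v i * (v i + 1) = v 0 * (v 0 + 1) +
            ∑ i : Fin (r + 4), if 1 ≤ (i : ℕ) then v i * (v i + 1) else 0 := by
          rw [Fin.sum_univ_succ (f := fun i : Fin (r + 4) => v i * (v i + 1)),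
            Fin.sum_univ_succ (f := fun i : Fin (r + 4) => if 1 ≤ (i : ℕ) then v i * (v i + 1) else 0)]
          simp
        have h8 : v 0 * (v 0 + 1) + (c + 1) * (2 * v 0 + c + 2) = (v 0 + c + 2) * (v 0 + c + 1) := by
          ring
        omega
  · left
    refine ⟨hd, h1, Or.inr ?_⟩
    rw [e30]
    exact (Nat.add_le_add_right (hmono _) _).trans h2

end Pool.Agent.Results.MP_d3128a_ag.ThreeArbitraryWide
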