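import Mathlib
import Pool.Agent.H200C.All
import Pool.Agent.H200C.AllNef
import Pool.Agent.Y939.NC.Reg
import Pool.Agent.Y939.NC.Std
import Pool.Agent.TH167.SH.Fam
import Pool.Agent.TH167.SH.Conv

set_option autoImplicit false

/-!
# Negative curves do not have chained multiplicities

A class `(d; w)` is CHAINED at `d` (`Pool.Agent.H200C.ChainAt`) if there are a point `p` and a set `A` of
other points, whose multiplicities are ARBITRARY numbers (those of `A` at most `M`), and numbers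
`E 0 ≥ E 1 ≥ … ≥ 1` (the degrees of a chain of curves), `μ ≥ 1`, `s` such that all other multiplicities
are at most `μ` and take at most `s` values, and
* `w p + (E 0 + … + E (M - 1)) + 2 ^ 27 (μ + 1) E 0 ≤ d`;
* for `k < M`, if `k = 0` or `E k < E (k - 1)`:
  `∑_A max (w i - k) 0 + E k (E 0 + … + E (k - 1)) + 2 ^ 31 (μ + 1) E k (E 0 + E k g k) ≤ E k d`,
  where `g k` is the number of the `i ∈ A` with `k < w i ≤ k + 2 ^ 26 (μ + 1)`;
* the squares of the other multiplicities have the sum at least `2 ^ 28 s μ ^ 2`, or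
  `∑_{A ∪ p} w i (w i + 1) + 2 ^ 30 (s + 1) μ ^ 2 ≤ (d + 1) (d + 2)`.
`Chained d w`: `(d; w)` is chained at `d`, or there is a chained class `(e; v)` with `e ≥ d`, `v ≤ w` and
`(e + 2).choose 2 ≤ ∑ (v i + 1).choose 2`.

A real class `c H - ∑ x_i E_i` is in CHAINED form (`Pool.Agent.H200C.ChainR`) if there are a point `p` and a
set `A` of other points with ARBITRARY coefficients, and numbers `e ≥ 1`, `h ≥ 0` (`e` is the degree of the
first `h` curves of a chain, followed by lines), such that the other coefficients are at most `m` and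
take at most `s` different values, with
* `x p + e h + 2 ^ 30 e m ≤ c`, and `x p + e h + (x i - h) + 2 ^ 30 e m ≤ c` for `i ∈ A`;
* `e h + ∑_A max (x i - h) 0 + 2 ^ 33 m (e + g h) ≤ c`;
* `∑_A x i + 2 ^ 33 m e ^ 2 (1 + g 0) ≤ e c`;
* the squares of the other coefficients have the sum at least `2 ^ 29 s m ^ 2`;
where `g t` is the number of the `i ∈ A` with `t < x i ≤ t + 2 ^ 28 m`.

Let `P 1, …, P s`, `s ≥ 4`, be very general points of the complex projective plane.

(1) Every plane curve of degree `e` with multiplicities at least `m i` satisfies `V ≤ e ^ 2`,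
`V = ∑_T m i ^ 2`, for all sets `T` of points such that the class `√V H - ∑_T m i E i` is in chained form:
no curve with these multiplicities has negative self-intersection.

(2) Let `C` be an irreducible curve with `C ^ 2 < 0` which is not a `(-1)`-curve. Then finitely many
quadratic transformations carry it to an irreducible curve of a standard class `(d1; w1)`, `d1 ≤ d`,
`w1 i ≤ w i`, `K C > 0`, which is neither good (`Pool.Agent.Y939.NC.Good`) nor chained.
-/

namespace Pool.Agent.Results.MP_d3e5c7_ag.ChainNegativeCurves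

open MvPolynomial Pool.Agent.TH167 Pool.Agent.TH167.SHDefs Pool.Agent.Y939.NC Pool.Agent.H200W
open Pool.Agent.H200C
open Pool.Agent.Y536.SH (Standard)
open Pool.Agent.Results.MP_309968_ag.BoundaryRays (MultGE)
open Pool.Agent.Results.MP_309968_ag.SexticDistance (mult_iff)

/-- (1) The self-intersection of a curve whose multiplicities on some of the points are chained is
nonnegative. (2) Standard forms of negative curves are neither good nor chained. -/
theorem result : ∃ N0 : ℕ, ∀ s : ℕ, 4 ≤ s →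
    ∃ Z : ℕ → MvPolynomial (Fin s × Fin 2) ℂ, (∀ n, Z n ≠ 0) ∧
      ∀ P : Fin s → Fin 2 → ℂ,
        (∀ n, MvPolynomial.eval (fun ij : Fin s × Fin 2 => P ij.1 ij.2) (Z n) ≠ 0) →
        (∀ (F : MvPolynomial (Fin 3) ℂ) (e : ℕ) (m : Fin s → ℕ), F.IsHomogeneous e → F ≠ 0 →
          (∀ i, MultGE (P i) F (m i)) → ∀ T : Finset (Fin s),
            ChainR (√(∑ i ∈ T, (m i : ℝ) ^ 2)) (fun i => if i ∈ T then (m i : ℝ) else 0) →
            ∑ i ∈ T, m i ^ 2 ≤ e ^ 2) ∧
        ∀ (d : ℕ) (w : Fin s → ℕ) (C : MvPolynomial (Fin 3) ℂ),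
          Curve P C d w → inter d w d w < 0 → ¬ MinusOne P C d w →
          ∃ (P1 : Fin s → Fin 2 → ℂ) (d1 : ℕ) (w1 : Fin s → ℕ) (C1 : MvPolynomial (Fin 3) ℂ),
            (∀ n, MvPolynomial.eval (fun ij : Fin s × Fin 2 => P1 ij.1 ij.2) (Z n) ≠ 0) ∧
            Curve P1 C1 d1 w1 ∧ Relation.ReflTransGen Quadratic (d, w) (d1, w1) ∧
            Standard d1 w1 ∧ d1 ≤ d ∧ (∀ i, w1 i ≤ w i) ∧
            inter d1 w1 d1 w1 = inter d w d w ∧ interK d1 w1 = interK d w ∧
            0 < interK d w ∧ ¬ Good N0 d1 w1 ∧ ¬ Chained d1 w1 := by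
  classical
  obtain ⟨N0, hN0⟩ := reg_exp
  refine ⟨N0, fun s hs => ?_⟩
  obtain ⟨r, rfl⟩ : ∃ r, s = r + 4 := ⟨s - 4, by omega⟩
  obtain ⟨Z, hZ, h⟩ := SH.exists_fam (Fin (r + 4) × Fin 2)
  refine ⟨Z, hZ, fun P hP0 => ?_⟩
  have hP := (h _).1 hP0
  refine ⟨fun F e m hFe hF hm T hT => ?_, fun d w C hC hneg hne => ?_⟩
  · obtain ⟨Q, hQ⟩ : ∃ Q : ℝ, Q = ∑ i ∈ T, (m i : ℝ) ^ 2 := ⟨_, rfl⟩
    have hQ0 : 0 ≤ Q := by rw [hQ]; positivity
    have e1 : ∑ i, (if i ∈ T then (m i : ℝ) else 0) ^ 2 = Q := by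
      rw [hQ, ← Finset.sum_filter_add_sum_filter_not Finset.univ (fun i => i ∈ T)]
      rw [Finset.sum_congr (g := fun i => (m i : ℝ) ^ 2) rfl (fun i hi => by
        rw [if_pos (Finset.mem_filter.1 hi).2])]
      rw [Finset.sum_eq_zero (s := Finset.univ.filter fun i => ¬ (i ∈ T)) (fun i hi => by
        rw [if_neg (Finset.mem_filter.1 hi).2]; norm_num), add_zero]
      congr 1
      ext i
      simp
    have e2 : ∑ i, (if i ∈ T then (m i : ℝ) else 0) * (m i : ℝ) = Q := by
      rw [← e1]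
      refine Finset.sum_congr rfl fun i _ => ?_
      split_ifs <;> ring
    have h1 := chain_nef hP hT (by rw [← hQ, Real.sq_sqrt hQ0, e1]) F e m hF hFe
      ((mult_iff hFe m).1 hm)
    rw [← hQ, e2] at h1
    have h2 : √Q * √Q = Q := Real.mul_self_sqrt hQ0
    have h3 : Q ≤ (e : ℝ) ^ 2 := by
      rcases (Real.sqrt_nonneg Q).eq_or_lt with h4 | h4
      · rw [← h4, mul_zero] at h2
        rw [← h2]
        positivity
      · have h5 : √Q * √Q ≤ √Q * e := by rw [h2]; exact h1
        have h6 := le_of_mul_le_mul_left h5 h4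
        calc Q = √Q ^ 2 := by rw [pow_two, h2]
          _ ≤ _ := pow_le_pow_left₀ h4.le h6 2
    rw [hQ] at h3
    exact_mod_cast h3
  · obtain ⟨h1, h2, h3⟩ := SH.curve_iff.1 hC
    have hne' : ¬ (SH.ip d w d w = -1 ∧ SH.kk d w = 1) := fun h0 =>
      hne ⟨hC, by rw [SH.inter_eq, h0.1], by rw [SH.interK_eq, h0.2]⟩
    obtain ⟨M, hM⟩ : ∃ M, ∀ j, w j ≤ M := ⟨∑ j, w j, fun j =>
      Finset.single_le_sum (fun _ _ => Nat.zero_le _) (Finset.mem_univ j)⟩
    have hw : SH.Few M d w := by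
      left
      rw [Finset.filter_false_of_mem fun j _ => not_lt.2 (hM j)]
      simp
    obtain ⟨P1, d1, w1, C1, a1, a2, a3, a4, a5, a6, a7, a8⟩ :=
      Pool.Agent.Y939.NC.std_irr d P hP w hw C h1 h2 h3 hne'
    obtain ⟨c1, c2, c3⟩ := SH.quad_inv a5
    simp only at c1 c2 c3
    rw [SH.inter_eq] at hneg
    have hwd : ∀ j, w1 j ≤ d1 := fun j => SH.van_le a2.ne_zero a3 (a4 j).1
    have hK : SH.kk d1 w1 < 0 := by
      by_contra hcon
      push Not at hcon
      have h4 : 0 ≤ SH.kk d1 w1 := hcon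
      rw [SH.kk_cast] at h4
      have h5 := SH.red_ip a6 hwd (by omega)
      omega
    have h7 := SH.two_chi d1 w1
    have h8 : SH.chi d1 w1 ≤ 0 := by omega
    have hex : Pool.Agent.H932R3.ExpDim ℂ w1 P1 d1 → False := by
      intro h6
      rw [Pool.Agent.TH442.NF.expDim_iff] at h6
      have hmem : C1 ∈ W609.CR.VS (fun j => W609.CR.aff (P1 j)) w1 d1 :=
        (SH.mem_VS _ _ _ _).2 ⟨a3, fun j => (a4 j).1⟩
      have hfin := W609.CR.vs_fin (fun j => W609.CR.aff (P1 j)) w1 d1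
      have hpos : 0 < Module.finrank ℂ ↥(W609.CR.VS (fun j => W609.CR.aff (P1 j)) w1 d1) :=
        Module.finrank_pos_iff.2 ⟨⟨C1, hmem⟩, 0, fun h7 => a2.ne_zero (congrArg Subtype.val h7)⟩
      rw [max_eq_left h8] at h6
      omega
    refine ⟨P1, d1, w1, C1, (h _).2 a1, SH.curve_iff.2 ⟨a2, a3, a4⟩, SH.chain_conv a5, a6, a7, a8,
      by rw [SH.inter_eq, SH.inter_eq, c3], by rw [SH.interK_eq, SH.interK_eq, c2], ?_,
      fun hG => hex (good_exp hN0 (by omega) a6 hG a1), fun hcon => hex (chained_all hcon a1)⟩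
    rw [SH.interK_eq, ← c2]
    omega

end Pool.Agent.Results.MP_d3e5c7_ag.ChainNegativeCurves
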