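import Mathlib
import Pool.Agent.H200P.All
import Pool.Agent.Y939.NC.Reg
import Pool.Agent.Y939.NC.Std
import Pool.Agent.TH167.SH.Fam
import Pool.Agent.TH167.SH.Conv

set_option autoImplicit false

/-!
# Negative curves have a point of multiplicity `> c d`, or almost all of their volume in large points

Let `P 1, …, P s`, `s ≥ 4`, be very general points of the complex projective plane.

(1) For every `ε > 0` there is a `γ > 0`, which depends only on `ε`, such that every plane curve of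
degree `e` with multiplicities at least `m i` satisfies `∑_T m i ^ 2 ≤ e ^ 2` for all sets `T` of points
such that, with `V = ∑_T m i ^ 2`: all `m i ≤ γ √V`, and for some `M` the multiplicities `≤ M` take at most
`k` values, `k M ^ 2 ≤ γ V`, and those at most `γ M` satisfy `∑ m i ^ 2 ≥ ε V` (`SmallPart`). In other
words: if `C ^ 2 < 0`, then some `m i > γ √V`, or the small multiplicities have almost no volume.

(2) Let `C` be an irreducible curve with `C ^ 2 < 0` which is not a `(-1)`-curve. Then finitely many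
quadratic transformations carry it to an irreducible curve of a standard class `(d1; w1)`, `d1 ≤ d`,
`w1 i ≤ w i`, `K C > 0`, which is not good (`Pool.Agent.Y939.NC.Good`) and CONCENTRATED
(`Pool.Agent.H200P.Concentrated c`, with a function `c` which depends on nothing): for every `ε > 0`, if
all `w1 i ≤ c(ε) d1`, then `∑_{w1 i > c(ε) d1 ^ (2/3)} w1 i ^ 2 > (1 - ε) d1 ^ 2` and
`∑_{w1 i ≤ c(ε) d1 ^ (2/3)} w1 i ^ 2 < ε d1 ^ 2`.
-/

namespace Pool.Agent.Results.MP_d3e5c7_ag.ConcentratedCurves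

open MvPolynomial Pool.Agent.TH167 Pool.Agent.TH167.SHDefs Pool.Agent.Y939.NC Pool.Agent.H200W
open Pool.Agent.H200P
open Pool.Agent.Y536.SH (Standard)
open Pool.Agent.Results.MP_309968_ag.BoundaryRays (MultGE)
open Pool.Agent.Results.MP_309968_ag.SexticDistance (mult_iff)

/-- (1) The self-intersection of a curve whose multiplicities on some of the points have a positive
part of small ones is nonnegative. (2) Standard forms of negative curves are not good, and
concentrated. -/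
theorem result : ∃ γ c : ℝ → ℝ, (∀ ε, 0 < ε → 0 < γ ε) ∧ (∀ ε, 0 < ε → 0 < c ε) ∧
    ∃ N0 : ℕ, ∀ s : ℕ, 4 ≤ s →
    ∃ Z : ℕ → MvPolynomial (Fin s × Fin 2) ℂ, (∀ n, Z n ≠ 0) ∧
      ∀ P : Fin s → Fin 2 → ℂ,
        (∀ n, MvPolynomial.eval (fun ij : Fin s × Fin 2 => P ij.1 ij.2) (Z n) ≠ 0) →
        (∀ (F : MvPolynomial (Fin 3) ℂ) (e : ℕ) (m : Fin s → ℕ), F.IsHomogeneous e → F ≠ 0 →
          (∀ i, MultGE (P i) F (m i)) → ∀ (ε : ℝ) (T : Finset (Fin s)), 0 < ε →
            SmallPart (γ ε) ε (√(∑ i ∈ T, (m i : ℝ) ^ 2)) (fun i => if i ∈ T then (m i : ℝ) else 0) →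
            ∑ i ∈ T, m i ^ 2 ≤ e ^ 2) ∧
        ∀ (d : ℕ) (w : Fin s → ℕ) (C : MvPolynomial (Fin 3) ℂ),
          Curve P C d w → inter d w d w < 0 → ¬ MinusOne P C d w →
          ∃ (P1 : Fin s → Fin 2 → ℂ) (d1 : ℕ) (w1 : Fin s → ℕ) (C1 : MvPolynomial (Fin 3) ℂ),
            (∀ n, MvPolynomial.eval (fun ij : Fin s × Fin 2 => P1 ij.1 ij.2) (Z n) ≠ 0) ∧
            Curve P1 C1 d1 w1 ∧ Relation.ReflTransGen Quadratic (d, w) (d1, w1) ∧
            Standard d1 w1 ∧ d1 ≤ d ∧ (∀ i, w1 i ≤ w i) ∧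
            inter d1 w1 d1 w1 = inter d w d w ∧ interK d1 w1 = interK d w ∧
            0 < interK d w ∧ ¬ Good N0 d1 w1 ∧ Concentrated c d1 w1 := by
  classical
  obtain ⟨γ, hγ, HN⟩ := nef_fun
  obtain ⟨c, hc, HC⟩ := conc_all
  obtain ⟨N0, hN0⟩ := reg_exp
  refine ⟨γ, c, hγ, hc, N0, fun s hs => ?_⟩
  obtain ⟨r, rfl⟩ : ∃ r, s = r + 4 := ⟨s - 4, by omega⟩
  obtain ⟨Z, hZ, h⟩ := SH.exists_fam (Fin (r + 4) × Fin 2)
  refine ⟨Z, hZ, fun P hP0 => ?_⟩
  have hP := (h _).1 hP0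
  refine ⟨fun F e m hFe hF hm ε T hε hT => ?_, fun d w C hC hneg hne => ?_⟩
  · obtain ⟨Q, hQ⟩ : ∃ Q : ℝ, Q = ∑ i ∈ T, (m i : ℝ) ^ 2 := ⟨_, rfl⟩
    have hQ0 : 0 ≤ Q := by rw [hQ]; positivity
    have e1 : ∑ i, (if i ∈ T then (m i : ℝ) else 0) ^ 2 = Q := by
      rw [hQ, ← Finset.sum_filter_add_sum_filter_not Finset.univ (fun i => i ∈ T)]
      rw [Finset.sum_congr (g := fun i => (m i : ℝ) ^ 2) rfl (fun i hi => by
        rw [if_pos (Finset.mem_filter.1 hi).2])]
      rw [Finset.sum_eq_zero (s := Finset.univ.filter fun i => ¬ (i ∈ T)) (fun i hi => by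
        rw [if_neg (Finset.mem_filter.1 hi).2]; norm_num), add_zero]
      congr 1
      ext i
      simp
    have e2 : ∑ i, (if i ∈ T then (m i : ℝ) else 0) * (m i : ℝ) = Q := by
      rw [← e1]
      refine Finset.sum_congr rfl fun i _ => ?_
      split_ifs <;> ring
    have h1 := HN ε hε hP _ _ hT (by rw [← hQ, Real.sq_sqrt hQ0, e1]) F e m hF hFe
      ((mult_iff hFe m).1 hm)
    rw [← hQ, e2] at h1
    have h2 : √Q * √Q = Q := Real.mul_self_sqrt hQ0
    have h3 : Q ≤ (e : ℝ) ^ 2 := by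
      rcases (Real.sqrt_nonneg Q).eq_or_lt with h4 | h4
      · rw [← h4, mul_zero] at h2
        rw [← h2]
        positivity
      · have h5 : √Q * √Q ≤ √Q * e := by rw [h2]; exact h1
        have h6 := le_of_mul_le_mul_left h5 h4
        calc Q = √Q ^ 2 := by rw [pow_two, h2]
          _ ≤ _ := pow_le_pow_left₀ h4.le h6 2
    rw [hQ] at h3
    exact_mod_cast h3
  · obtain ⟨h1, h2, h3⟩ := SH.curve_iff.1 hC
    have hne' : ¬ (SH.ip d w d w = -1 ∧ SH.kk d w = 1) := fun h0 =>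
      hne ⟨hC, by rw [SH.inter_eq, h0.1], by rw [SH.interK_eq, h0.2]⟩
    obtain ⟨M, hM⟩ : ∃ M, ∀ j, w j ≤ M := ⟨∑ j, w j, fun j =>
      Finset.single_le_sum (fun _ _ => Nat.zero_le _) (Finset.mem_univ j)⟩
    have hw : SH.Few M d w := by
      left
      rw [Finset.filter_false_of_mem fun j _ => not_lt.2 (hM j)]
      simp
    obtain ⟨P1, d1, w1, C1, a1, a2, a3, a4, a5, a6, a7, a8⟩ :=
      Pool.Agent.Y939.NC.std_irr d P hP w hw C h1 h2 h3 hne'
    obtain ⟨c1, c2, c3⟩ := SH.quad_inv a5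
    simp only at c1 c2 c3
    rw [SH.inter_eq] at hneg
    have hwd : ∀ j, w1 j ≤ d1 := fun j => SH.van_le a2.ne_zero a3 (a4 j).1
    have hK : SH.kk d1 w1 < 0 := by
      by_contra hcon
      push Not at hcon
      have h4 : 0 ≤ SH.kk d1 w1 := hcon
      rw [SH.kk_cast] at h4
      have h5 := SH.red_ip a6 hwd (by omega)
      omega
    have h7 := SH.two_chi d1 w1
    have h8 : SH.chi d1 w1 ≤ 0 := by omega
    have hex : Pool.Agent.H932R3.ExpDim ℂ w1 P1 d1 → False := by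
      intro h6
      rw [Pool.Agent.TH442.NF.expDim_iff] at h6
      have hmem : C1 ∈ W609.CR.VS (fun j => W609.CR.aff (P1 j)) w1 d1 :=
        (SH.mem_VS _ _ _ _).2 ⟨a3, fun j => (a4 j).1⟩
      have hfin := W609.CR.vs_fin (fun j => W609.CR.aff (P1 j)) w1 d1
      have hpos : 0 < Module.finrank ℂ ↥(W609.CR.VS (fun j => W609.CR.aff (P1 j)) w1 d1) :=
        Module.finrank_pos_iff.2 ⟨⟨C1, hmem⟩, 0, fun h7 => a2.ne_zero (congrArg Subtype.val h7)⟩
      rw [max_eq_left h8] at h6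
      omega
    refine ⟨P1, d1, w1, C1, (h _).2 a1, SH.curve_iff.2 ⟨a2, a3, a4⟩, SH.chain_conv a5, a6, a7, a8,
      by rw [SH.inter_eq, SH.inter_eq, c3], by rw [SH.interK_eq, SH.interK_eq, c2], ?_,
      fun hG => hex (good_exp hN0 (by omega) a6 hG a1), ?_⟩
    · rw [SH.interK_eq, ← c2]
      omega
    · by_contra hcon
      exact hex (HC w1 hcon a1)

end Pool.Agent.Results.MP_d3e5c7_ag.ConcentratedCurves
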