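import Mathlib
import Pool.Agent.H200W.NefFin
import Pool.Agent.Y939.NC.Reg
import Pool.Agent.Y939.NC.Std
import Pool.Agent.TH167.SH.Fam
import Pool.Agent.TH167.SH.Conv

set_option autoImplicit false

/-!
# Negative curves do not have wide multiplicities

Let `P 1, …, P s`, `s ≥ 4`, be very general points of the complex projective plane.

(1) Let `F` be any form of degree `e` with multiplicity at least `m i` at `P i` and let `T` be a set
of points such that the class `c H - ∑_T m i E i`, `c ^ 2 = ∑_T m i ^ 2`, is in wide form: three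
multiplicities `m 1 ≥ m 2 ≥ m 3` are ARBITRARY, the others are at most `M`, take at most `r`
different values and satisfy `∑ m i ^ 2 ≥ 2 ^ 29 r M ^ 2`; and `m 1 + m 2 + m 3 ≤ c`,
`m 1 + 1064960 M ≤ c`. Then `∑_T m i ^ 2 ≤ e ^ 2`: no curve with these multiplicities has negative
self-intersection.

(2) Let `C` be an irreducible curve with `C ^ 2 < 0` which is not a `(-1)`-curve. Then finitely many
quadratic transformations carry it to an irreducible curve of a standard class `(d1; w1)`,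
`d1 ≤ d`, `w1 i ≤ w i`, `K C > 0`, which is not good (`Pool.Agent.Y939.NC.Good`) and such that for
any three points with the multiplicities `a ≥ b ≥ c`, if the other multiplicities are at most `μ` and
take `r` different nonzero values: `d1 < a + 1064960 (μ + 1)`, or the sum of the squares of the
other multiplicities is smaller than `2 ^ 28 r μ ^ 2`.
-/

namespace Pool.Agent.Results.MP_d3e5c7_ag.WideNegativeCurves

open MvPolynomial Pool.Agent.TH167 Pool.Agent.TH167.SHDefs Pool.Agent.Y939.NC Pool.Agent.H200W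
open Pool.Agent.Y536.SH (Standard)
open Pool.Agent.Results.MP_309968_ag.BoundaryRays (MultGE)
open Pool.Agent.Results.MP_309968_ag.SexticDistance (mult_iff)

theorem sum_nat_three {n : ℕ} {p : Fin 3 → Fin n} (hp : Function.Injective p) (f : Fin n → ℕ)
    (h : ∀ i, (∀ j, p j ≠ i) → f i = 0) : ∑ i, f i = f (p 0) + f (p 1) + f (p 2) := by
  classical
  rw [← Fin.sum_univ_three (fun j => f (p j)),
    ← Finset.sum_image (s := Finset.univ) (g := p) (f := f) (fun a _ b _ hab => hp hab)]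
  symm
  refine Finset.sum_subset (Finset.subset_univ _) fun i _ hi => h i fun j hj => ?_
  exact hi (Finset.mem_image.2 ⟨j, Finset.mem_univ _, hj⟩)

/-- A standard irreducible curve of negative self-intersection is not wide. -/
theorem thin {s : ℕ} {P1 : Fin s → Fin 2 → ℂ}
    (hP : AlgebraicIndependent ℚ (fun ij : Fin s × Fin 2 => P1 ij.1 ij.2)) {d1 : ℕ}
    {w1 : Fin s → ℕ} {C1 : MvPolynomial (Fin 3) ℂ} (h0 : C1 ≠ 0) (hC : C1.IsHomogeneous d1)
    (hord : ∀ j, W609.CR.Van (W609.CR.aff (P1 j)) (w1 j) C1) (hstd : Standard d1 w1)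
    (hneg : d1 ^ 2 < ∑ i, w1 i ^ 2) (hchi : SH.chi d1 w1 ≤ 0)
    {p : Fin 3 → Fin s} (hp : Function.Injective p) (h21 : w1 (p 2) ≤ w1 (p 1))
    (h10 : w1 (p 1) ≤ w1 (p 0)) {μ : ℕ} (hμ : ∀ i, (∀ j, p j ≠ i) → w1 i ≤ μ) :
    d1 < w1 (p 0) + 1064960 * (μ + 1) ∨
      ∑ i ∈ Finset.univ.filter (fun i => ∀ j, p j ≠ i), w1 i ^ 2 <
        2 ^ 28 * ((Finset.univ.filter fun i => (∀ j, p j ≠ i) ∧ 1 ≤ w1 i).image w1).card *
          μ ^ 2 := by
  classical
  by_contra hcon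
  push Not at hcon
  obtain ⟨g2, g3⟩ := hcon
  obtain ⟨S, hS⟩ : ∃ S : Finset (Fin s), S = Finset.univ.filter fun i =>
    (∀ j, p j ≠ i) ∧ 1 ≤ w1 i := ⟨_, rfl⟩
  have hmS : ∀ i, i ∈ S ↔ (∀ j, p j ≠ i) ∧ 1 ≤ w1 i := by
    intro i
    rw [hS, Finset.mem_filter]
    exact ⟨fun h => h.2, fun h => ⟨Finset.mem_univ _, h⟩⟩
  have n01 : p 0 ≠ p 1 := fun h => by simpa using hp h
  have n02 : p 0 ≠ p 2 := fun h => by simpa using hp h
  have n12 : p 1 ≠ p 2 := fun h => by simpa using hp h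
  have h3 := hstd (p 0) (p 1) (p 2) n01 n02 n12
  rcases S.eq_empty_or_nonempty with hE | hne
  · -- only three points
    have h4 : ∀ i, (∀ j, p j ≠ i) → w1 i ^ 2 = 0 := by
      intro i hi
      have h5 : ¬ (i ∈ S) := by rw [hE]; exact Finset.notMem_empty i
      rw [hmS] at h5
      have h6 : w1 i = 0 := by
        by_contra h7
        exact h5 ⟨hi, by omega⟩
      rw [h6]
      norm_num
    rw [sum_nat_three hp (fun i => w1 i ^ 2) h4] at hneg
    nlinarith [Nat.zero_le (w1 (p 0) * w1 (p 1)), Nat.zero_le (w1 (p 0) * w1 (p 2)),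
      Nat.zero_le (w1 (p 1) * w1 (p 2)), Nat.mul_le_mul h3 h3]
  · have hsq : ∑ i ∈ Finset.univ.filter (fun i => ∀ j, p j ≠ i), w1 i ^ 2 =
        ∑ i ∈ S, w1 i ^ 2 := by
      symm
      refine Finset.sum_subset (fun i hi => ?_) fun i hi hi' => ?_
      · rw [Finset.mem_filter]
        exact ⟨Finset.mem_univ _, ((hmS i).1 hi).1⟩
      · rw [Finset.mem_filter] at hi
        rw [hmS] at hi'
        have h6 : w1 i = 0 := by
          by_contra h7
          exact hi' ⟨hi.2, by omega⟩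
        rw [h6]
        norm_num
    have hW : WideAt d1 w1 := by
      refine ⟨p, S, μ, (S.image w1).card, hp, fun j hj => ((hmS _).1 hj).1 j rfl, fun i hi hi' => ?_,
        hne, h21, h10, fun i hi => ⟨((hmS i).1 hi).2, hμ i ((hmS i).1 hi).1⟩, le_rfl, h3, g2,
        Or.inl ?_⟩
      · by_contra h7
        exact hi ((hmS i).2 ⟨hi', by omega⟩)
      · rw [← hsq, hS]
        exact g3
    have h6 := wideAt_all hW (K := ℂ) hP
    rw [Pool.Agent.TH442.NF.expDim_iff] at h6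
    have hmem : C1 ∈ W609.CR.VS (fun j => W609.CR.aff (P1 j)) w1 d1 :=
      (SH.mem_VS _ _ _ _).2 ⟨hC, hord⟩
    have hfin := W609.CR.vs_fin (fun j => W609.CR.aff (P1 j)) w1 d1
    have hpos : 0 < Module.finrank ℂ ↥(W609.CR.VS (fun j => W609.CR.aff (P1 j)) w1 d1) :=
      Module.finrank_pos_iff.2 ⟨⟨C1, hmem⟩, 0, fun h7 => h0 (congrArg Subtype.val h7)⟩
    rw [max_eq_left hchi] at h6
    omega

/-- (1) The self-intersection of a curve whose multiplicities on some of the points are wide is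
nonnegative. (2) Standard forms of negative curves are not good and not wide. -/
theorem result : ∃ N0 : ℕ, ∀ s : ℕ, 4 ≤ s →
    ∃ Z : ℕ → MvPolynomial (Fin s × Fin 2) ℂ, (∀ n, Z n ≠ 0) ∧
      ∀ P : Fin s → Fin 2 → ℂ,
        (∀ n, MvPolynomial.eval (fun ij : Fin s × Fin 2 => P ij.1 ij.2) (Z n) ≠ 0) →
        (∀ (F : MvPolynomial (Fin 3) ℂ) (e : ℕ) (m : Fin s → ℕ), F.IsHomogeneous e → F ≠ 0 →
          (∀ i, MultGE (P i) F (m i)) → ∀ T : Finset (Fin s),
            WideR (√(∑ i ∈ T, (m i : ℝ) ^ 2)) (fun i => if i ∈ T then (m i : ℝ) else 0) →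
            ∑ i ∈ T, m i ^ 2 ≤ e ^ 2) ∧
        ∀ (d : ℕ) (w : Fin s → ℕ) (C : MvPolynomial (Fin 3) ℂ),
          Curve P C d w → inter d w d w < 0 → ¬ MinusOne P C d w →
          ∃ (P1 : Fin s → Fin 2 → ℂ) (d1 : ℕ) (w1 : Fin s → ℕ) (C1 : MvPolynomial (Fin 3) ℂ),
            (∀ n, MvPolynomial.eval (fun ij : Fin s × Fin 2 => P1 ij.1 ij.2) (Z n) ≠ 0) ∧
            Curve P1 C1 d1 w1 ∧ Relation.ReflTransGen Quadratic (d, w) (d1, w1) ∧
            Standard d1 w1 ∧ d1 ≤ d ∧ (∀ i, w1 i ≤ w i) ∧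
            inter d1 w1 d1 w1 = inter d w d w ∧ interK d1 w1 = interK d w ∧
            0 < interK d w ∧ ¬ Good N0 d1 w1 ∧
            ∀ p : Fin 3 → Fin s, Function.Injective p → w1 (p 2) ≤ w1 (p 1) →
              w1 (p 1) ≤ w1 (p 0) → ∀ μ : ℕ, (∀ i, (∀ j, p j ≠ i) → w1 i ≤ μ) →
              d1 < w1 (p 0) + 1064960 * (μ + 1) ∨
                ∑ i ∈ Finset.univ.filter (fun i => ∀ j, p j ≠ i), w1 i ^ 2 <
                  2 ^ 28 * ((Finset.univ.filter fun i => (∀ j, p j ≠ i) ∧ 1 ≤ w1 i).image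
                    w1).card * μ ^ 2 := by
  classical
  obtain ⟨N0, hN0⟩ := reg_exp
  refine ⟨N0, fun s hs => ?_⟩
  obtain ⟨r, rfl⟩ : ∃ r, s = r + 4 := ⟨s - 4, by omega⟩
  obtain ⟨Z, hZ, h⟩ := SH.exists_fam (Fin (r + 4) × Fin 2)
  refine ⟨Z, hZ, fun P hP0 => ?_⟩
  have hP := (h _).1 hP0
  refine ⟨fun F e m hFe hF hm T hT => ?_, fun d w C hC hneg hne => ?_⟩
  · obtain ⟨Q, hQ⟩ : ∃ Q : ℝ, Q = ∑ i ∈ T, (m i : ℝ) ^ 2 := ⟨_, rfl⟩
    have hQ0 : 0 ≤ Q := by rw [hQ]; positivity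
    have e1 : ∑ i, (if i ∈ T then (m i : ℝ) else 0) ^ 2 = Q := by
      rw [hQ, ← Finset.sum_filter_add_sum_filter_not Finset.univ (fun i => i ∈ T)]
      rw [Finset.sum_congr (g := fun i => (m i : ℝ) ^ 2) rfl (fun i hi => by
        rw [if_pos (Finset.mem_filter.1 hi).2])]
      rw [Finset.sum_eq_zero (s := Finset.univ.filter fun i => ¬ (i ∈ T)) (fun i hi => by
        rw [if_neg (Finset.mem_filter.1 hi).2]; norm_num), add_zero]
      congr 1
      ext i
      simp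
    have e2 : ∑ i, (if i ∈ T then (m i : ℝ) else 0) * (m i : ℝ) = Q := by
      rw [← e1]
      refine Finset.sum_congr rfl fun i _ => ?_
      split_ifs <;> ring
    have h1 := nefWide nefExp hP _ _ hT (by rw [← hQ, Real.sq_sqrt hQ0, e1]) F e m hF hFe
      ((mult_iff hFe m).1 hm)
    rw [← hQ, e2] at h1
    have h2 : √Q * √Q = Q := Real.mul_self_sqrt hQ0
    have h3 : Q ≤ (e : ℝ) ^ 2 := by
      rcases (Real.sqrt_nonneg Q).eq_or_lt with h4 | h4
      · rw [← h4, mul_zero] at h2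
        rw [← h2]
        positivity
      · have h5 : √Q * √Q ≤ √Q * e := by rw [h2]; exact h1
        have h6 := le_of_mul_le_mul_left h5 h4
        calc Q = √Q ^ 2 := by rw [pow_two, h2]
          _ ≤ _ := pow_le_pow_left₀ h4.le h6 2
    rw [hQ] at h3
    exact_mod_cast h3
  · obtain ⟨h1, h2, h3⟩ := SH.curve_iff.1 hC
    have hne' : ¬ (SH.ip d w d w = -1 ∧ SH.kk d w = 1) := fun h0 =>
      hne ⟨hC, by rw [SH.inter_eq, h0.1], by rw [SH.interK_eq, h0.2]⟩
    obtain ⟨M, hM⟩ : ∃ M, ∀ j, w j ≤ M := ⟨∑ j, w j, fun j =>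
      Finset.single_le_sum (fun _ _ => Nat.zero_le _) (Finset.mem_univ j)⟩
    have hw : SH.Few M d w := by
      left
      rw [Finset.filter_false_of_mem fun j _ => not_lt.2 (hM j)]
      simp
    obtain ⟨P1, d1, w1, C1, a1, a2, a3, a4, a5, a6, a7, a8⟩ :=
      Pool.Agent.Y939.NC.std_irr d P hP w hw C h1 h2 h3 hne'
    obtain ⟨c1, c2, c3⟩ := SH.quad_inv a5
    simp only at c1 c2 c3
    rw [SH.inter_eq] at hneg
    have hwd : ∀ j, w1 j ≤ d1 := fun j => SH.van_le a2.ne_zero a3 (a4 j).1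
    have hK : SH.kk d1 w1 < 0 := by
      by_contra hcon
      push Not at hcon
      have h4 : 0 ≤ SH.kk d1 w1 := hcon
      rw [SH.kk_cast] at h4
      have h5 := SH.red_ip a6 hwd (by omega)
      omega
    have h7 := SH.two_chi d1 w1
    have h8 : SH.chi d1 w1 ≤ 0 := by omega
    refine ⟨P1, d1, w1, C1, (h _).2 a1, SH.curve_iff.2 ⟨a2, a3, a4⟩, SH.chain_conv a5, a6, a7, a8,
      by rw [SH.inter_eq, SH.inter_eq, c3], by rw [SH.interK_eq, SH.interK_eq, c2], ?_,
      fun hG => ?_, fun p hp h21 h10 μ hμ => ?_⟩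
    · rw [SH.interK_eq, ← c2]
      omega
    · have h6 := good_exp hN0 (by omega) a6 hG a1
      rw [Pool.Agent.TH442.NF.expDim_iff] at h6
      have hmem : C1 ∈ W609.CR.VS (fun j => W609.CR.aff (P1 j)) w1 d1 :=
        (SH.mem_VS _ _ _ _).2 ⟨a3, fun j => (a4 j).1⟩
      have hfin := W609.CR.vs_fin (fun j => W609.CR.aff (P1 j)) w1 d1
      have hpos : 0 < Module.finrank ℂ ↥(W609.CR.VS (fun j => W609.CR.aff (P1 j)) w1 d1) :=
        Module.finrank_pos_iff.2 ⟨⟨C1, hmem⟩, 0, fun h7 => a2.ne_zero (congrArg Subtype.val h7)⟩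
      rw [max_eq_left h8] at h6
      omega
    · refine thin a1 a2.ne_zero a3 (fun j => (a4 j).1) a6 ?_ h8 hp h21 h10 hμ
      have h9 : SH.ip d1 w1 d1 w1 < 0 := by rw [c3]; exact hneg
      unfold SH.ip at h9
      have h10 : (∑ j, (w1 j : ℤ) * w1 j) = ((∑ j, w1 j ^ 2 : ℕ) : ℤ) := by
        push_cast
        exact Finset.sum_congr rfl fun j _ => by ring
      rw [h10] at h9
      have h11 : ((d1 ^ 2 : ℕ) : ℤ) < ((∑ j, w1 j ^ 2 : ℕ) : ℤ) := by
        push_cast at h9 ⊢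
        linarith
      exact_mod_cast h11

end Pool.Agent.Results.MP_d3e5c7_ag.WideNegativeCurves
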